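import Mathlib
import Pool.Agent.H533R3.SL.Asm

set_option autoImplicit false
set_option linter.unusedSectionVars false

/-! # The generic curve with `r` terms, and specialisation to an algebraically closed field -/

namespace Pool.Agent.Helper6K9.EX

open Finset MvPolynomial Pool.Agent.H533R3.SL

variable {n r : ℕ}

/-- the generic coefficients -/
noncomputable def ct (A : Type) [CommRing A] (n r : ℕ) (j : Fin r) (i : Fin (n + 1)) :
    MvPolynomial (Fin r × Fin (n + 1)) A := X (j, i)

/-- the point with parameter one -/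
noncomputable def xt (A : Type) [CommRing A] (n r : ℕ) (i : Fin (n + 1)) :
    MvPolynomial (Fin r × Fin (n + 1)) A := ∑ j, ct A n r j i

/-- a coefficient which measures that the curve is not constant -/
noncomputable def Nt (A : Type) [CommRing A] (n r : ℕ) (l : Fin r → ℕ) (i i' : Fin (n + 1))
    (w : ℕ) : MvPolynomial (Fin r × Fin (n + 1)) A :=
  (cur (ct A n r) l i * Polynomial.C (xt A n r i') -
    cur (ct A n r) l i' * Polynomial.C (xt A n r i)).coeff w

section spec
variable {A S : Type} [CommRing A] [CommRing S] [Algebra A S]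
  (s : MvPolynomial (Fin r × Fin (n + 1)) A →ₐ[A] S) (l : Fin r → ℕ)

theorem spec_cur (i : Fin (n + 1)) : Polynomial.mapAlgHom s (cur (ct A n r) l i) =
    cur (fun j i => s (ct A n r j i)) l i := by
  unfold cur
  rw [map_sum]
  refine Finset.sum_congr rfl fun j _ => ?_
  simp

theorem spec_form (F : MvPolynomial (Fin (n + 1)) A) :
    Polynomial.mapAlgHom s (aeval (cur (ct A n r) l) F) =
      aeval (cur (fun j i => s (ct A n r j i)) l) F := by
  have h1 := congrArg (fun f => f F) (MvPolynomial.comp_aeval (R := A) (cur (ct A n r) l)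
    (Polynomial.mapAlgHom s))
  refine Eq.trans h1 ?_
  show MvPolynomial.aeval (fun i => Polynomial.mapAlgHom s (cur (ct A n r) l i)) F = _
  congr 2
  funext i
  exact spec_cur s l i

theorem spec_pt (F : MvPolynomial (Fin (n + 1)) A) :
    s (aeval (xt A n r) F) = aeval (fun i => ∑ j, s (ct A n r j i)) F := by
  have h1 := congrArg (fun f => f F) (MvPolynomial.comp_aeval (R := A) (xt A n r) s)
  refine Eq.trans h1 ?_
  show MvPolynomial.aeval (fun i => s (xt A n r i)) F = _
  congr 2
  funext i
  simp only [xt, map_sum]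

theorem spec_N (i i' : Fin (n + 1)) (w : ℕ) :
    s (Nt A n r l i i' w) = (cur (fun j i => s (ct A n r j i)) l i *
      Polynomial.C (∑ j, s (ct A n r j i')) -
      cur (fun j i => s (ct A n r j i)) l i' * Polynomial.C (∑ j, s (ct A n r j i))).coeff w := by
  have h1 : s (Nt A n r l i i' w) = (Polynomial.mapAlgHom s (cur (ct A n r) l i *
      Polynomial.C (xt A n r i') -
      cur (ct A n r) l i' * Polynomial.C (xt A n r i))).coeff w := by
    rw [Polynomial.coe_mapAlgHom, Polynomial.coeff_map]
    rfl
  rw [h1, map_sub, map_mul, map_mul, spec_cur, spec_cur]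
  congr 3
  · simp [xt, map_sum]
  · simp [xt, map_sum]

end spec

/-- a point over a field can be specialised to an algebraically closed field -/
theorem specialise {k L K σ : Type} [Finite σ] [Field k] [Field L] [Field K] [Algebra k L]
    [Algebra k K] [IsAlgClosed K] (a : σ → L) (h : MvPolynomial σ k) (hh : aeval a h ≠ 0) :
    ∃ x : σ → K, (∀ f : MvPolynomial σ k, aeval a f = 0 → aeval x f = 0) ∧ aeval x h ≠ 0 := by
  classical
  set I : Ideal (MvPolynomial σ k) := RingHom.ker (aeval (R := k) a) with hI
  have hprime : I.IsPrime := RingHom.ker_isPrime _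
  have h1 := vanishingIdeal_zeroLocus_eq_radical (K := K) I
  rw [hprime.radical] at h1
  have h2 : h ∉ vanishingIdeal k (zeroLocus K I) := by
    rw [h1]
    intro h
    exact hh h
  rw [mem_vanishingIdeal_iff] at h2
  push Not at h2
  obtain ⟨x, hx, hx2⟩ := h2
  exact ⟨x, fun f hf => (mem_zeroLocus_iff.1 hx) f hf, hx2⟩

/-- **Descent of curves with `r` terms to an algebraically closed field.** -/
theorem descend {k L K : Type} [Field k] [Field L] [Algebra k L] [Field K] [Algebra k K]
    [IsAlgClosed K] {N : ℕ} (P : Fin N → MvPolynomial (Fin (n + 1)) k)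
    (G : MvPolynomial (Fin (n + 1)) k) (l : Fin r → ℕ) (c : Fin r → Fin (n + 1) → L)
    (h0 : ∀ i, aeval (cur c l) (P i) = 0)
    (hc : ∃ i i', cur c l i * Polynomial.C (∑ j, c j i') ≠
      cur c l i' * Polynomial.C (∑ j, c j i))
    (hG : aeval (fun i => ∑ j, c j i) G ≠ 0) :
    ∃ v : Fin r → Fin (n + 1) → K, (∀ i, aeval (cur v l) (P i) = 0) ∧
      (∃ i i', cur v l i * Polynomial.C (∑ j, v j i') ≠
        cur v l i' * Polynomial.C (∑ j, v j i)) ∧
      aeval (fun i => ∑ j, v j i) G ≠ 0 := by
  classical
  obtain ⟨i, i', hc⟩ := hc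
  obtain ⟨w, hw⟩ : ∃ w, (cur c l i * Polynomial.C (∑ j, c j i') -
      cur c l i' * Polynomial.C (∑ j, c j i)).coeff w ≠ 0 := by
    by_contra h
    push Not at h
    apply hc
    rw [← sub_eq_zero]
    ext w
    rw [h w, Polynomial.coeff_zero]
  let a : Fin r × Fin (n + 1) → L := fun q => c q.1 q.2
  have ha : ∀ j i, aeval a (ct k n r j i) = c j i := fun j i => by
    rw [ct, aeval_X]
  have hN : aeval a (Nt k n r l i i' w) = (cur c l i * Polynomial.C (∑ j, c j i') -
      cur c l i' * Polynomial.C (∑ j, c j i)).coeff w := by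
    rw [spec_N]
    simp_rw [ha]
  have hP : aeval a (aeval (xt k n r) G) = aeval (fun i => ∑ j, c j i) G := by
    rw [spec_pt]
    simp_rw [ha]
  obtain ⟨x, hx, hxh⟩ := specialise (K := K) a (aeval (xt k n r) G * Nt k n r l i i' w) (by
    rw [map_mul, hN, hP]
    exact mul_ne_zero hG hw)
  rw [map_mul, spec_N, spec_pt] at hxh
  refine ⟨fun j i => aeval x (ct k n r j i), ?_, ⟨i, i', ?_⟩, left_ne_zero_of_mul hxh⟩
  · intro t
    rw [← spec_form (aeval x) l (P t)]
    ext m
    rw [Polynomial.coe_mapAlgHom, Polynomial.coeff_map, Polynomial.coeff_zero]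
    apply hx
    have h1 := spec_form (aeval a) l (P t)
    simp_rw [ha] at h1
    have h2 := congrArg (fun q => Polynomial.coeff q m) (h1.trans (h0 t))
    simp only [Polynomial.coe_mapAlgHom, Polynomial.coeff_map, Polynomial.coeff_zero] at h2
    exact h2
  · intro h
    apply right_ne_zero_of_mul hxh
    rw [h, sub_self, Polynomial.coeff_zero]

end Pool.Agent.Helper6K9.EX
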