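import Mathlib
import Pool.Agent.Helper6K9.EX.Spec

set_option autoImplicit false
set_option linter.unusedSectionVars false

/-! # The universal system of forms and constructible sets of points on curves -/

namespace Pool.Agent.Helper6K9.EX

open Finset MvPolynomial Pool.Agent.H533R3.SL TensorProduct PrimeSpectrum

/-- two homomorphisms to fields with the same kernel can be amalgamated -/
theorem amalgam (R K1 K2 : Type) [CommRing R] [Field K1] [Field K2] (f1 : R →+* K1)
    (f2 : R →+* K2) (h : RingHom.ker f1 = RingHom.ker f2) :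
    ∃ (L : Type) (_ : Field L) (g1 : K1 →+* L) (g2 : K2 →+* L), g1.comp f1 = g2.comp f2 := by
  let R' : Type := R ⧸ RingHom.ker f1
  let f1' : R' →+* K1 := RingHom.kerLift f1
  let f2' : R' →+* K2 := Ideal.Quotient.lift (RingHom.ker f1) f2 (fun a ha => by
    rw [h] at ha
    exact ha)
  have h1 : Function.Injective f1' := RingHom.kerLift_injective f1
  have h2 : Function.Injective f2' := by
    rw [injective_iff_map_eq_zero]
    intro a ha
    obtain ⟨a, rfl⟩ := Ideal.Quotient.mk_surjective a
    rw [Ideal.Quotient.eq_zero_iff_mem, h]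
    exact ha
  let _ : Algebra R' K1 := f1'.toAlgebra
  let _ : Algebra R' K2 := f2'.toAlgebra
  have hnt : Nontrivial (K1 ⊗[R'] K2) :=
    Algebra.TensorProduct.nontrivial_of_algebraMap_injective_of_isDomain R' K1 K2 h1 h2
  obtain ⟨m, hm⟩ := Ideal.exists_maximal (K1 ⊗[R'] K2)
  refine ⟨(K1 ⊗[R'] K2) ⧸ m, Ideal.Quotient.field m,
    (Ideal.Quotient.mk m).comp (Algebra.TensorProduct.includeLeft (R := R') (S := R')
      (A := K1) (B := K2)).toRingHom,
    (Ideal.Quotient.mk m).comp (Algebra.TensorProduct.includeRight (R := R')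
      (A := K1) (B := K2)).toRingHom, ?_⟩
  refine RingHom.ext fun a => ?_
  show Ideal.Quotient.mk m (Algebra.TensorProduct.includeLeft (R := R') (S := R')
      (A := K1) (B := K2) (algebraMap R' K1 (Ideal.Quotient.mk _ a))) =
    Ideal.Quotient.mk m (Algebra.TensorProduct.includeRight (R := R')
      (A := K1) (B := K2) (algebraMap R' K2 (Ideal.Quotient.mk _ a)))
  rw [AlgHom.commutes, AlgHom.commutes]

variable {n N d r : ℕ}

/-- the coefficients of `N` polynomials in `n + 1` variables of degree at most `d` in each
variable -/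
abbrev Coef (n N d : ℕ) : Type := Fin N × (Fin (n + 1) → Fin (d + 1))

/-- the exponent vector -/
noncomputable def expo (e : Fin (n + 1) → Fin (d + 1)) : Fin (n + 1) →₀ ℕ :=
  Finsupp.equivFunOnFinite.symm (fun j => (e j : ℕ))

theorem expo_inj : Function.Injective (expo : (Fin (n + 1) → Fin (d + 1)) → _) := by
  intro e e' h
  have h1 : (fun j => (e j : ℕ)) = fun j => (e' j : ℕ) :=
    Finsupp.equivFunOnFinite.symm.injective h
  funext j
  exact Fin.ext (congrFun h1 j)

/-- the universal polynomials -/
noncomputable def UP (n N d : ℕ) (i : Fin N) :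
    MvPolynomial (Fin (n + 1)) (MvPolynomial (Coef n N d) ℤ) :=
  ∑ e : Fin (n + 1) → Fin (d + 1), monomial (expo e) (X (i, e))

/-- the evaluation of the universal coefficients at the coefficients of the system `P` -/
noncomputable def coefHom {R : Type} [CommRing R] (d : ℕ)
    (P : Fin N → MvPolynomial (Fin (n + 1)) R) : MvPolynomial (Coef n N d) ℤ →+* R :=
  MvPolynomial.eval₂Hom (Int.castRingHom R) (fun q => coeff (expo q.2) (P q.1))

theorem map_UP {R : Type} [CommRing R] (P : Fin N → MvPolynomial (Fin (n + 1)) R) (i : Fin N)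
    (hP : ∀ α ∈ (P i).support, ∀ j, α j ≤ d) :
    MvPolynomial.map (coefHom d P) (UP n N d i) = P i := by
  classical
  ext α
  unfold UP
  rw [map_sum, MvPolynomial.coeff_sum]
  have h1 : ∀ e : Fin (n + 1) → Fin (d + 1), coeff α (MvPolynomial.map (coefHom d P)
      (monomial (expo e) (X (i, e) : MvPolynomial (Coef n N d) ℤ))) =
      if expo e = α then coeff α (P i) else 0 := by
    intro e
    rw [MvPolynomial.map_monomial, MvPolynomial.coeff_monomial]
    split_ifs with h
    · rw [coefHom, MvPolynomial.coe_eval₂Hom, MvPolynomial.eval₂_X, h]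
    · rfl
  simp_rw [h1]
  by_cases hα : ∃ e : Fin (n + 1) → Fin (d + 1), expo e = α
  · obtain ⟨e, he⟩ := hα
    rw [Finset.sum_eq_single e]
    · rw [if_pos he]
    · intro e' _ hne
      rw [if_neg]
      intro h
      exact hne (expo_inj (h.trans he.symm))
    · intro h
      exact absurd (Finset.mem_univ _) h
  · rw [Finset.sum_eq_zero]
    · symm
      rw [← MvPolynomial.notMem_support_iff]
      intro h
      apply hα
      refine ⟨fun j => ⟨α j, Nat.lt_succ_of_le (hP α h j)⟩, ?_⟩
      unfold expo
      ext j
      rfl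
    · intro e _
      rw [if_neg]
      intro h
      exact hα ⟨e, h⟩

theorem homog_exp {R : Type} [CommRing R] (F : MvPolynomial (Fin (n + 1)) R) (e : ℕ) (he : e ≤ d)
    (hF : F.IsHomogeneous e) : ∀ α ∈ F.support, ∀ j, α j ≤ d := by
  intro α hα j
  have h2 := hF (MvPolynomial.mem_support_iff.1 hα)
  rw [Finsupp.weight_apply, Finsupp.sum_fintype _ _ (by simp)] at h2
  have h3 : ∑ j, α j = e := by simpa using h2
  have h4 : α j ≤ ∑ j, α j :=
    Finset.single_le_sum (f := fun j => α j) (fun _ _ => Nat.zero_le _) (Finset.mem_univ j)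
  omega

/-- the universal coefficient ring -/
abbrev AA (n N d : ℕ) : Type := MvPolynomial (Coef n N d) ℤ

/-- the map from the point to the curve -/
noncomputable def phi (n N d r : ℕ) : MvPolynomial (Fin (n + 1)) (AA n N d) →ₐ[AA n N d]
    MvPolynomial (Fin r × Fin (n + 1)) (AA n N d) := aeval (xt (AA n N d) n r)

theorem phi_fp : (phi n N d r).toRingHom.FinitePresentation := by
  have h1 : ((phi n N d r).toRingHom.comp
      (algebraMap (AA n N d) (MvPolynomial (Fin (n + 1)) (AA n N d)))).FinitePresentation := by
    have h2 : (phi n N d r).toRingHom.comp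
        (algebraMap (AA n N d) (MvPolynomial (Fin (n + 1)) (AA n N d))) =
        algebraMap (AA n N d) (MvPolynomial (Fin r × Fin (n + 1)) (AA n N d)) :=
      (phi n N d r).comp_algebraMap
    rw [h2, RingHom.finitePresentation_algebraMap]
    infer_instance
  refine RingHom.FinitePresentation.of_comp_finiteType _ h1 ?_
  rw [RingHom.finiteType_algebraMap]
  infer_instance

/-- the constructible set of the nonconstant curves on the universal system -/
def UU (n N d r : ℕ) (l : Fin r → ℕ) (i i' : Fin (n + 1)) (w : ℕ) :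
    Set (PrimeSpectrum (MvPolynomial (Fin r × Fin (n + 1)) (AA n N d))) :=
  {q | (∀ t m, (aeval (cur (ct (AA n N d) n r) l) (UP n N d t)).coeff m ∈ q.asIdeal) ∧
    Nt (AA n N d) n r l i i' w ∉ q.asIdeal}

theorem UU_constructible (l : Fin r → ℕ) (i i' : Fin (n + 1)) (w : ℕ) :
    Topology.IsConstructible (UU n N d r l i i' w) := by
  classical
  set S : Finset (MvPolynomial (Fin r × Fin (n + 1)) (AA n N d)) := Finset.univ.biUnion
    (fun t : Fin N => (Finset.range ((aeval (cur (ct (AA n N d) n r) l) (UP n N d t)).natDegree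
      + 1)).image (fun m => (aeval (cur (ct (AA n N d) n r) l) (UP n N d t)).coeff m)) with hS
  set D : BasicConstructibleSetData (MvPolynomial (Fin r × Fin (n + 1)) (AA n N d)) :=
    ⟨Nt (AA n N d) n r l i i' w, S.card, fun i => (S.equivFin.symm i).1⟩ with hD
  have h1 : UU n N d r l i i' w = ConstructibleSetData.toSet {D} := by
    ext q
    unfold ConstructibleSetData.toSet
    simp only [Finset.mem_singleton, Set.iUnion_iUnion_eq_left]
    unfold BasicConstructibleSetData.toSet UU
    rw [Set.mem_sdiff, mem_zeroLocus, mem_zeroLocus, Set.mem_ofPred_eq, Set.range_subset_iff,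
      Set.singleton_subset_iff]
    refine and_congr ?_ Iff.rfl
    constructor
    · intro h j
      have hmem : ∀ x ∈ S, x ∈ (q.asIdeal : Set _) := by
        intro x h2
        rw [hS, Finset.mem_biUnion] at h2
        obtain ⟨t, _, h3⟩ := h2
        rw [Finset.mem_image] at h3
        obtain ⟨m, _, h4⟩ := h3
        rw [← h4]
        exact h t m
      exact hmem _ (S.equivFin.symm j).2
    · intro h t m
      by_cases hm : m ≤ (aeval (cur (ct (AA n N d) n r) l) (UP n N d t)).natDegree
      · have h2 : (aeval (cur (ct (AA n N d) n r) l) (UP n N d t)).coeff m ∈ S := by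
          rw [hS, Finset.mem_biUnion]
          refine ⟨t, Finset.mem_univ _, Finset.mem_image.2 ⟨m, ?_, rfl⟩⟩
          rw [Finset.mem_range]
          omega
        have h3 := h (S.equivFin ⟨_, h2⟩)
        have h4 : D.g (S.equivFin ⟨_, h2⟩) =
            (aeval (cur (ct (AA n N d) n r) l) (UP n N d t)).coeff m := by
          show ((S.equivFin.symm (S.equivFin ⟨_, h2⟩)) : {x // x ∈ S}).1 = _
          rw [Equiv.symm_apply_apply]
        rw [h4] at h3
        exact h3
      · rw [Polynomial.coeff_eq_zero_of_natDegree_lt (by omega)]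
        exact q.asIdeal.zero_mem
  rw [h1]
  exact ConstructibleSetData.isConstructible_toSet _

end Pool.Agent.Helper6K9.EX
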