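import Mathlib
import Pool.Agent.Helper6K9.EX.Univ

set_option autoImplicit false
set_option linter.unusedSectionVars false

/-! # The hypersurface which contains the curves, given by universal formulas -/

namespace Pool.Agent.Helper6K9.EX

open Finset MvPolynomial Pool.Agent.H533R3.SL PrimeSpectrum

variable {n N d r : ℕ}

theorem exists_field (R : Type) [CommRing R] (Q : Ideal R) [Q.IsPrime] :
    ∃ (K : Type) (_ : Field K) (m : R →+* K), ∀ a, m a = 0 ↔ a ∈ Q := by
  refine ⟨FractionRing (R ⧸ Q), inferInstance,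
    (algebraMap (R ⧸ Q) (FractionRing (R ⧸ Q))).comp (Ideal.Quotient.mk Q), fun a => ?_⟩
  show algebraMap (R ⧸ Q) (FractionRing (R ⧸ Q)) (Ideal.Quotient.mk Q a) = 0 ↔ _
  rw [FaithfulSMul.algebraMap_eq_zero_iff, Ideal.Quotient.eq_zero_iff_mem]

/-- if the variety is not uniruled then its generic point is not on a curve with `r` terms -/
theorem generic_notin (l : Fin r → ℕ) (i i' : Fin (n + 1)) (w : ℕ) (k : Type) [Field k]
    (P : Fin N → MvPolynomial (Fin (n + 1)) k) (hP : ∀ t, ∀ α ∈ (P t).support, ∀ j, α j ≤ d)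
    (hprime : (Ideal.span (Set.range P)).IsPrime) (hnu : ¬ Uniruled (Ideal.span (Set.range P)))
    (ξ : PrimeSpectrum (MvPolynomial (Fin (n + 1)) (AA n N d)))
    (hξ : ξ.asIdeal = Ideal.comap (MvPolynomial.map (coefHom d P)) (Ideal.span (Set.range P))) :
    ξ ∉ comap (phi n N d r).toRingHom '' UU n N d r l i i' w := by
  classical
  rintro ⟨q, ⟨hq1, hq2⟩, hq3⟩
  set I := Ideal.span (Set.range P) with hI
  set Q := q.asIdeal with hQ
  have hQp : Q.IsPrime := q.isPrime
  obtain ⟨K1, _, m1, hm1⟩ := exists_field (MvPolynomial (Fin (n + 1)) k) I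
  obtain ⟨K2, _, m2, hm2⟩ := exists_field (MvPolynomial (Fin r × Fin (n + 1)) (AA n N d)) Q
  let f1 : MvPolynomial (Fin (n + 1)) (AA n N d) →+* K1 := m1.comp (MvPolynomial.map (coefHom d P))
  let f2 : MvPolynomial (Fin (n + 1)) (AA n N d) →+* K2 := m2.comp (phi n N d r).toRingHom
  have hker : RingHom.ker f1 = RingHom.ker f2 := by
    have h1 : RingHom.ker f1 = ξ.asIdeal := by
      rw [hξ]
      ext F
      rw [RingHom.mem_ker, Ideal.mem_comap]
      exact hm1 _
    have h2 : RingHom.ker f2 = ξ.asIdeal := by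
      rw [← hq3]
      ext F
      rw [RingHom.mem_ker]
      exact hm2 _
    rw [h1, h2]
  obtain ⟨L, _, g1, g2, hg⟩ := amalgam _ K1 K2 f1 f2 hker
  have hg' : ∀ F, g1 (m1 (MvPolynomial.map (coefHom d P) F)) = g2 (m2 (phi n N d r F)) :=
    fun F => congrArg (fun h : _ →+* L => h F) hg
  let _ : Algebra k L := ((g1.comp m1).comp (MvPolynomial.C)).toAlgebra
  let _ : Algebra (AA n N d) k := (coefHom d P).toAlgebra
  let _ : Algebra (AA n N d) L := ((algebraMap k L).comp (coefHom d P)).toAlgebra
  have hst : IsScalarTower (AA n N d) k L := IsScalarTower.of_algebraMap_eq fun _ => rfl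
  have hrho : ∀ a : AA n N d, g2 (m2 (MvPolynomial.C a)) = algebraMap (AA n N d) L a := by
    intro a
    have h1 := hg' (MvPolynomial.C a)
    have h2 : phi n N d r (MvPolynomial.C a) = MvPolynomial.C a := by
      exact (phi n N d r).commutes a
    rw [h2, MvPolynomial.map_C] at h1
    rw [← h1]
    rfl
  let s : MvPolynomial (Fin r × Fin (n + 1)) (AA n N d) →ₐ[AA n N d] L :=
    { toRingHom := g2.comp m2
      commutes' := hrho }
  have hs : ∀ F, s F = g2 (m2 F) := fun _ => rfl
  have hs0 : ∀ F, s F = 0 ↔ F ∈ Q := by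
    intro F
    rw [hs, map_eq_zero, hm2]
  let c : Fin r → Fin (n + 1) → L := fun j a => s (ct (AA n N d) n r j a)
  have hxc : ∀ a, ∑ j, c j a = g1 (m1 (MvPolynomial.X a)) := by
    intro a
    have h1 := hg' (MvPolynomial.X a)
    rw [MvPolynomial.map_X] at h1
    rw [h1]
    have h2 : phi n N d r (MvPolynomial.X a) = xt (AA n N d) n r a := by
      unfold phi
      rw [aeval_X]
    rw [h2, ← hs]
    unfold xt
    rw [map_sum]
  have haev : ∀ G : MvPolynomial (Fin (n + 1)) k,
      aeval (fun a => ∑ j, c j a) G = g1 (m1 G) := by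
    intro G
    have h1 : (aeval (R := k) (fun a => ∑ j, c j a)).toRingHom = g1.comp m1 := by
      refine MvPolynomial.ringHom_ext (fun a => ?_) (fun a => ?_)
      · show aeval (R := k) (fun a => ∑ j, c j a) (MvPolynomial.C a) = _
        rw [aeval_C]
        rfl
      · show aeval (R := k) (fun a => ∑ j, c j a) (MvPolynomial.X a) = _
        rw [aeval_X, hxc]
        rfl
    exact congrArg (fun h : _ →+* L => h G) h1
  apply hnu
  refine ⟨L, inferInstance, inferInstance, cur c l, ?_, ?_, ?_⟩
  · have hle : I ≤ RingHom.ker (MvPolynomial.aeval (R := k) (cur c l)).toRingHom := by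
      rw [hI, Ideal.span_le]
      rintro _ ⟨t, rfl⟩
      show MvPolynomial.aeval (cur c l) (P t) = 0
      have h1 : MvPolynomial.aeval (R := AA n N d) (cur c l) (UP n N d t) = 0 := by
        rw [← spec_form s l (UP n N d t)]
        ext m
        rw [Polynomial.coe_mapAlgHom, Polynomial.coeff_map, Polynomial.coeff_zero]
        exact (hs0 _).2 (hq1 t m)
      rw [← map_UP P t (hP t)]
      rw [← h1]
      exact aeval_map_algebraMap k (cur c l) (UP n N d t)
    intro F hF
    exact hle hF
  · intro G _ hGI h0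
    have h1 : (fun i => (cur c l i).eval 1) = fun a => ∑ j, c j a := by
      funext a
      exact cur_eval_one _ _ _
    rw [h1, haev, map_eq_zero, hm1] at h0
    exact hGI h0
  · refine ⟨i, i', fun h0 => ?_⟩
    rw [cur_eval_one, cur_eval_one] at h0
    have h1 := spec_N s l i i' w
    apply hq2
    rw [← hs0, h1]
    show (cur c l i * Polynomial.C (∑ j, c j i') -
      cur c l i' * Polynomial.C (∑ j, c j i)).coeff w = 0
    rw [h0, sub_self, Polynomial.coeff_zero]

/-- the points of the nonconstant curves are in the image -/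
theorem point_in (l : Fin r → ℕ) (i i' : Fin (n + 1)) (w : ℕ) (k L : Type) [Field k] [Field L]
    [Algebra k L] (P : Fin N → MvPolynomial (Fin (n + 1)) k)
    (hP : ∀ t, ∀ α ∈ (P t).support, ∀ j, α j ≤ d) (c : Fin r → Fin (n + 1) → L)
    (h0 : ∀ t, aeval (cur c l) (P t) = 0)
    (hN : (cur c l i * Polynomial.C (∑ j, c j i') -
      cur c l i' * Polynomial.C (∑ j, c j i)).coeff w ≠ 0)
    (T : ConstructibleSetData (MvPolynomial (Fin (n + 1)) (AA n N d)))
    (hT : T.toSet = comap (phi n N d r).toRingHom '' UU n N d r l i i' w) :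
    ∃ D ∈ T, (∀ j, aeval (fun a => ∑ j, c j a) (MvPolynomial.map (coefHom d P) (D.g j)) = 0) ∧
      aeval (fun a => ∑ j, c j a) (MvPolynomial.map (coefHom d P) D.f) ≠ 0 := by
  classical
  let _ : Algebra (AA n N d) k := (coefHom d P).toAlgebra
  let _ : Algebra (AA n N d) L := ((algebraMap k L).comp (coefHom d P)).toAlgebra
  have hst : IsScalarTower (AA n N d) k L := IsScalarTower.of_algebraMap_eq fun _ => rfl
  let s : MvPolynomial (Fin r × Fin (n + 1)) (AA n N d) →ₐ[AA n N d] L :=
    aeval (fun q : Fin r × Fin (n + 1) => c q.1 q.2)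
  have hsc : ∀ j a, s (ct (AA n N d) n r j a) = c j a := by
    intro j a
    show aeval (fun q : Fin r × Fin (n + 1) => c q.1 q.2) (MvPolynomial.X (j, a)) = _
    rw [aeval_X]
  have hxs : ∀ F : MvPolynomial (Fin (n + 1)) (AA n N d), s (phi n N d r F) =
      aeval (fun a => ∑ j, c j a) (MvPolynomial.map (coefHom d P) F) := by
    intro F
    unfold phi
    rw [spec_pt]
    simp_rw [hsc]
    exact (aeval_map_algebraMap k (fun a => ∑ j, c j a) F).symm
  let q : PrimeSpectrum (MvPolynomial (Fin r × Fin (n + 1)) (AA n N d)) :=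
    ⟨RingHom.ker s, RingHom.ker_isPrime _⟩
  have hq : q ∈ UU n N d r l i i' w := by
    constructor
    · intro t m
      show s _ = 0
      have h1 := spec_form s l (UP n N d t)
      simp_rw [hsc] at h1
      have h2 : MvPolynomial.aeval (R := AA n N d) (cur c l) (UP n N d t) = 0 := by
        rw [← h0 t]
        conv_rhs => rw [← map_UP P t (hP t)]
        exact (aeval_map_algebraMap k (cur c l) (UP n N d t)).symm
      rw [h2] at h1
      have h3 := congrArg (fun q => Polynomial.coeff q m) h1
      simp only [Polynomial.coe_mapAlgHom, Polynomial.coeff_map, Polynomial.coeff_zero] at h3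
      exact h3
    · show ¬ s _ = 0
      rw [spec_N]
      simp_rw [hsc]
      exact hN
  have hmem : comap (phi n N d r).toRingHom q ∈ T.toSet := by
    rw [hT]
    exact ⟨q, hq, rfl⟩
  unfold ConstructibleSetData.toSet at hmem
  rw [Set.mem_iUnion₂] at hmem
  obtain ⟨D, hD, hmem⟩ := hmem
  unfold BasicConstructibleSetData.toSet at hmem
  rw [Set.mem_sdiff, mem_zeroLocus, mem_zeroLocus, Set.range_subset_iff,
    Set.singleton_subset_iff] at hmem
  refine ⟨D, hD, fun j => ?_, fun h => hmem.2 ?_⟩
  · rw [← hxs]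
    exact hmem.1 j
  · rw [← hxs] at h
    exact h

end Pool.Agent.Helper6K9.EX
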