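import Mathlib
import Pool.Agent.Helper6K9.EX.Unif

set_option autoImplicit false
set_option linter.unusedSectionVars false

/-! # Finitely many universal formulas for the exceptional set -/

namespace Pool.Agent.Helper6K9.EX

open Finset MvPolynomial Pool.Agent.H533R3.SL PrimeSpectrum

variable {n N d r : ℕ}

theorem aeval_smul_hom {k R : Type} [Field k] [CommRing R] [Algebra k R] {e : ℕ}
    (F : MvPolynomial (Fin (n + 1)) k) (hF : F.IsHomogeneous e) (c : R) (x : Fin (n + 1) → R) :
    aeval (fun a => c * x a) F = c ^ e * aeval x F := by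
  rw [MvPolynomial.aeval_def, MvPolynomial.aeval_def, MvPolynomial.eval₂_eq',
    MvPolynomial.eval₂_eq', Finset.mul_sum]
  refine Finset.sum_congr rfl fun m hm => ?_
  have h1 : ∑ j, m j = e := by
    have := hF (MvPolynomial.mem_support_iff.1 hm)
    rw [← this, Finsupp.weight_apply, Finsupp.sum_fintype _ _ (by simp)]
    simp
  simp only [mul_pow, Finset.prod_mul_distrib, Finset.prod_pow_eq_pow_sum, h1]
  ring

theorem cur_smul {R : Type} [CommRing R] (lam : R) (c : Fin r → Fin (n + 1) → R) (l : Fin r → ℕ)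
    (i : Fin (n + 1)) : cur (fun j a => lam * c j a) l i = Polynomial.C lam * cur c l i := by
  unfold cur
  rw [Finset.mul_sum]
  refine Finset.sum_congr rfl fun j _ => ?_
  rw [Polynomial.C_mul, mul_assoc]

/-- the value of a form on the variety at a point of the curve -/
theorem val_zero {k L : Type} [Field k] [Field L] [Algebra k L] (c : Fin r → Fin (n + 1) → L)
    (l : Fin r → ℕ) (F : MvPolynomial (Fin (n + 1)) k) (h : aeval (cur c l) F = 0) :
    aeval (fun a => ∑ j, c j a) F = 0 := by
  have h1 := MvPolynomial.comp_aeval_apply (R := k) (cur c l)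
    ((Polynomial.aeval (1 : L) : Polynomial L →ₐ[L] L).restrictScalars k) F
  rw [h, map_zero] at h1
  rw [h1]
  congr 2
  funext a
  show _ = Polynomial.aeval (1 : L) (cur c l a)
  rw [Polynomial.coe_aeval_eq_eval, cur_eval_one]

/-- **Finitely many universal formulas**, for fixed exponents. -/
theorem exists_list (n N d r : ℕ) (l : Fin r → ℕ) (i i' : Fin (n + 1)) (w : ℕ) :
    ∃ 𝓛 : Finset (MvPolynomial (Fin (n + 1)) (AA n N d)), (∀ g ∈ 𝓛, ∃ e, g.IsHomogeneous e) ∧
      ∀ (k : Type) [Field k] [Infinite k] (P : Fin N → MvPolynomial (Fin (n + 1)) k),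
        (∀ t, ∃ e, e ≤ d ∧ (P t).IsHomogeneous e) → (Ideal.span (Set.range P)).IsPrime →
        ¬ Uniruled (Ideal.span (Set.range P)) →
        ∃ g ∈ 𝓛, MvPolynomial.map (coefHom d P) g ∉ Ideal.span (Set.range P) ∧
          ∀ (L : Type) [Field L] [Algebra k L] (c : Fin r → Fin (n + 1) → L),
            (∀ t, aeval (cur c l) (P t) = 0) →
            (cur c l i * Polynomial.C (∑ j, c j i') -
              cur c l i' * Polynomial.C (∑ j, c j i)).coeff w ≠ 0 →
            aeval (fun a => ∑ j, c j a) (MvPolynomial.map (coefHom d P) g) = 0 := by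
  classical
  obtain ⟨T, hT⟩ := exists_constructibleSetData_iff.2
    (isConstructible_comap_image (phi_fp (n := n) (N := N) (d := d) (r := r))
      (UU_constructible l i i' w))
  let S : BasicConstructibleSetData (MvPolynomial (Fin (n + 1)) (AA n N d)) →
    Finset (MvPolynomial (Fin (n + 1)) (AA n N d)) := fun D => insert 1 (Finset.univ.image D.g)
  let 𝓟 : Finset (MvPolynomial (Fin (n + 1)) (AA n N d)) :=
    (T.pi S).image (fun h => ∏ D ∈ T.attach, h D.1 D.2)
  let 𝓛 : Finset (MvPolynomial (Fin (n + 1)) (AA n N d)) :=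
    𝓟.biUnion (fun Γ => (Finset.range (Γ.totalDegree + 1)).image
      (fun e => homogeneousComponent e Γ))
  refine ⟨𝓛, ?_, ?_⟩
  · intro g hg
    rw [Finset.mem_biUnion] at hg
    obtain ⟨Γ, _, h1⟩ := hg
    rw [Finset.mem_image] at h1
    obtain ⟨e, _, rfl⟩ := h1
    exact ⟨e, homogeneousComponent_isHomogeneous e Γ⟩
  intro k _ _ P hPh hprime hnu
  choose D0 hD0 hD0h using hPh
  have hP : ∀ t, ∀ α ∈ (P t).support, ∀ j, α j ≤ d := fun t => homog_exp (P t) (D0 t) (hD0 t)
    (hD0h t)
  set I := Ideal.span (Set.range P) with hI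
  set M := MvPolynomial.map (σ := Fin (n + 1)) (coefHom d P) with hM
  let ξ : PrimeSpectrum (MvPolynomial (Fin (n + 1)) (AA n N d)) :=
    ⟨Ideal.comap M I, hprime.comap _⟩
  have hξ := generic_notin l i i' w k P hP hprime hnu ξ rfl
  rw [← hT] at hξ
  have hD : ∀ D ∈ T, (∀ j, M (D.g j) ∈ I) → M D.f ∈ I := by
    intro D hD h
    by_contra hf
    apply hξ
    unfold ConstructibleSetData.toSet
    rw [Set.mem_iUnion₂]
    refine ⟨D, hD, ?_⟩
    unfold BasicConstructibleSetData.toSet
    rw [Set.mem_sdiff, mem_zeroLocus, mem_zeroLocus, Set.range_subset_iff,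
      Set.singleton_subset_iff]
    exact ⟨h, hf⟩
  let h : BasicConstructibleSetData (MvPolynomial (Fin (n + 1)) (AA n N d)) →
      MvPolynomial (Fin (n + 1)) (AA n N d) := fun D =>
    if hj : ∃ j, M (D.g j) ∉ I then D.g hj.choose else 1
  have hhI : ∀ D, M (h D) ∉ I := by
    intro D
    by_cases hj : ∃ j, M (D.g j) ∉ I
    · simp only [h, dif_pos hj]
      exact hj.choose_spec
    · simp only [h, dif_neg hj, map_one]
      exact fun h1 => hprime.ne_top ((Ideal.eq_top_iff_one _).2 h1)
  have hhS : ∀ D, h D ∈ S D := by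
    intro D
    by_cases hj : ∃ j, M (D.g j) ∉ I
    · simp only [h, dif_pos hj, S]
      exact Finset.mem_insert_of_mem (Finset.mem_image_of_mem _ (Finset.mem_univ _))
    · simp only [h, dif_neg hj, S]
      exact Finset.mem_insert_self _ _
  let Γ : MvPolynomial (Fin (n + 1)) (AA n N d) := ∏ D ∈ T.attach, h D.1
  have hΓP : Γ ∈ 𝓟 := Finset.mem_image.2 ⟨fun D _ => h D, by
    rw [Finset.mem_pi]
    exact fun D _ => hhS D, rfl⟩
  have hΓI : M Γ ∉ I := by
    simp only [Γ, map_prod]
    rw [hprime.prod_mem_iff]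
    push Not
    exact fun D _ => hhI D.1
  have hΓsum : Γ = ∑ e ∈ Finset.range (Γ.totalDegree + 1), homogeneousComponent e Γ :=
    (sum_homogeneousComponent Γ).symm
  obtain ⟨e, he, heI⟩ : ∃ e ∈ Finset.range (Γ.totalDegree + 1),
      M (homogeneousComponent e Γ) ∉ I := by
    by_contra hcon
    push Not at hcon
    apply hΓI
    rw [hΓsum, map_sum]
    exact Ideal.sum_mem _ hcon
  refine ⟨homogeneousComponent e Γ, ?_, heI, ?_⟩
  · rw [Finset.mem_biUnion]
    exact ⟨Γ, hΓP, Finset.mem_image_of_mem _ he⟩
  intro L _ _ c hc0 hcw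
  have hinfL : Infinite L := Infinite.of_injective (algebraMap k L) (algebraMap k L).injective
  set x : Fin (n + 1) → L := fun a => ∑ j, c j a with hx
  -- vanishing at all multiples
  have hvan : ∀ lam : L, lam ≠ 0 → aeval (fun a => lam * x a) (M Γ) = 0 := by
    intro lam hlam
    have hxl : (fun a => lam * x a) = fun a => ∑ j, (fun j a => lam * c j a) j a := by
      funext a
      rw [hx, Finset.mul_sum]
    have hc0' : ∀ t, aeval (cur (fun j a => lam * c j a) l) (P t) = 0 := by
      intro t
      have h1 : cur (fun j a => lam * c j a) l = fun a => Polynomial.C lam * cur c l a := by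
        funext a
        exact cur_smul lam c l a
      rw [h1, aeval_smul_hom (P t) (hD0h t), hc0 t, mul_zero]
    have hcw' : (cur (fun j a => lam * c j a) l i * Polynomial.C (∑ j, lam * c j i') -
        cur (fun j a => lam * c j a) l i' * Polynomial.C (∑ j, lam * c j i)).coeff w ≠ 0 := by
      rw [cur_smul, cur_smul, ← Finset.mul_sum, ← Finset.mul_sum, Polynomial.C_mul,
        Polynomial.C_mul]
      have h1 : Polynomial.C lam * cur c l i * (Polynomial.C lam * Polynomial.C (∑ j, c j i')) -
          Polynomial.C lam * cur c l i' * (Polynomial.C lam * Polynomial.C (∑ j, c j i)) =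
          Polynomial.C (lam * lam) * (cur c l i * Polynomial.C (∑ j, c j i') -
            cur c l i' * Polynomial.C (∑ j, c j i)) := by
        rw [Polynomial.C_mul]
        ring
      rw [h1, Polynomial.coeff_C_mul]
      exact mul_ne_zero (mul_ne_zero hlam hlam) hcw
    obtain ⟨D, hDT, hD1, hD2⟩ := point_in l i i' w k L P hP (fun j a => lam * c j a) hc0' hcw' T hT
    rw [hxl]
    have hhD : aeval (fun a => ∑ j, (fun j a => lam * c j a) j a) (M (h D)) = 0 := by
      by_cases hj : ∃ j, M (D.g j) ∉ I
      · simp only [h, dif_pos hj]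
        exact hD1 _
      · exfalso
        push Not at hj
        apply hD2
        have h1 := hD D hDT hj
        have hle : I ≤ RingHom.ker (aeval (R := k)
            (fun a => ∑ j, (fun j a => lam * c j a) j a)).toRingHom := by
          rw [hI, Ideal.span_le]
          rintro _ ⟨t, rfl⟩
          exact val_zero _ l (P t) (hc0' t)
        exact hle h1
    show aeval (fun a => ∑ j, (fun j a => lam * c j a) j a) (M (∏ D ∈ T.attach, h D.1)) = 0
    rw [map_prod, map_prod]
    exact Finset.prod_eq_zero (Finset.mem_attach T ⟨D, hDT⟩) hhD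
  -- the polynomial in the multiple
  let q : Polynomial L := ∑ e ∈ Finset.range (Γ.totalDegree + 1),
    Polynomial.C (aeval x (M (homogeneousComponent e Γ))) * Polynomial.X ^ e
  have hq : ∀ lam : L, q.eval lam = aeval (fun a => lam * x a) (M Γ) := by
    intro lam
    conv_rhs => rw [hΓsum]
    rw [map_sum, map_sum]
    simp only [q]
    rw [Polynomial.eval_finsetSum]
    refine Finset.sum_congr rfl fun e _ => ?_
    rw [aeval_smul_hom _ ((homogeneousComponent_isHomogeneous e Γ).map _), Polynomial.eval_mul,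
      Polynomial.eval_C, Polynomial.eval_pow, Polynomial.eval_X, mul_comm]
  have hq0 : q = 0 := by
    refine Polynomial.eq_zero_of_infinite_isRoot q ?_
    refine Set.Infinite.mono (s := {lam : L | lam ≠ 0}) ?_ ?_
    · intro lam hlam
      show q.eval lam = 0
      rw [hq]
      exact hvan lam hlam
    · have h1 : {lam : L | lam ≠ 0} = ({0} : Set L)ᶜ := rfl
      rw [h1]
      exact (Set.finite_singleton _).infinite_compl
  have h2 := congrArg (fun q => Polynomial.coeff q e) hq0
  simp only [q, Polynomial.finsetSum_coeff, Polynomial.coeff_zero,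
    Polynomial.coeff_C_mul_X_pow] at h2
  rw [Finset.sum_ite_eq, if_pos he] at h2
  exact h2

end Pool.Agent.Helper6K9.EX
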