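import Mathlib
import Pool.Agent.Helper6K9.EX.Lst
import Pool.Agent.H533R3.SL.UOff
import Pool.Agent.TH409.SH.Fin

set_option autoImplicit false
set_option linter.unusedSectionVars false

/-! # The count and the height bound for a given hypersurface; the universal hypersurface -/

namespace Pool.Agent.Helper6K9.EX

open Finset NumberField MvPolynomial Pool.Agent.H458.Sp Pool.Agent.H533R3.SL

variable {K : Type} [Field K] [NumberField K] {n r : ℕ}

/-- The uniform count off a hypersurface which contains the nonconstant curves with `r` terms (proof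
adapted from the library theorem `card_sparseOff`). -/
theorem card_of_G (k : Type) [Field k] [NumberField k] {N : ℕ}
    (P : Fin N → MvPolynomial (Fin (n + 1)) (𝓞 k)) (d : ℕ)
    (hP : ∀ i, ∃ e, e ≤ d ∧ (P i).IsHomogeneous e) (r : ℕ)
    (G : MvPolynomial (Fin (n + 1)) k)
    (hG3 : ∀ (L : Type) [Field L] [Algebra k L] (c : Fin r → Fin (n + 1) → L) (l : Fin r → ℕ),
        (∀ F ∈ (MvPolynomial.map (algebraMap (𝓞 k) k)) '' Set.range P,
          MvPolynomial.aeval (cur c l) F = 0) →
        (∃ i i', cur c l i * Polynomial.C (∑ j, c j i') ≠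
          cur c l i' * Polynomial.C (∑ j, c j i)) →
        MvPolynomial.aeval (fun i => ∑ j, c j i) G = 0) :
    ∀ (K : Type) [Field K] [NumberField K] [Algebra k K] (b : 𝓞 K), b ≠ 0 → ¬ IsUnit b →
      ∀ V : Finset (𝓞 K), (sparseOff P G K b r V).encard ≤
        ((V.card ^ ((n + 1) * r) * ((Nat.factorial ((d + 1) ^ r)) ^ 2) ^ N : ℕ) : ℕ∞) := by
  classical
  intro K _ _ _ b hb0 hbu V
  obtain ⟨W, hW⟩ := exists_val b hb0 hbu
  set M := (d + 1) ^ r with hM
  choose D hD hDh using hP
  set PK : Fin N → MvPolynomial (Fin (n + 1)) (𝓞 K) := fun i =>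
    MvPolynomial.map (algebraMap (𝓞 k) (𝓞 K)) (P i) with hPK
  have hPKh : ∀ i, (PK i).IsHomogeneous (D i) := fun i => (hDh i).map _
  have hPKz : ∀ (x : Fin (n + 1) → 𝓞 K) (i : Fin N), aeval x (PK i) = aeval x (P i) := by
    intro x i
    rw [hPK]
    simp only
    rw [aeval_map_algebraMap]
  have hcol := fun (v : Fin r → Fin (n + 1) → 𝓞 K) (i : Fin N) =>
    coloring W b hb0 hW M (GG v (PK i)).support (fun α => coeff α (GG v (PK i)))
      (GG_card v (PK i) (D i) d (hD i) (hPKh i))
  choose col hcol using hcol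
  set S := sparseOff P G K b r V with hS
  have hex : ∀ q : S, ∃ w : (Fin r → ℕ) × (Fin r → Fin (n + 1) → {z // z ∈ V}),
      ∃ h : (fun i => algebraMap (𝓞 K) K (∑ j, (w.2 j i).1 * b ^ (w.1 j))) ≠ 0,
      q.1 = Projectivization.mk K
        (fun i => algebraMap (𝓞 K) K (∑ j, (w.2 j i).1 * b ^ (w.1 j))) h ∧
      (∀ t, aeval (fun i => ∑ j, (w.2 j i).1 * b ^ (w.1 j)) (PK t) = 0) ∧
      aeval (fun i => algebraMap (𝓞 K) K (∑ j, (w.2 j i).1 * b ^ (w.1 j))) G ≠ 0 := by
    rintro ⟨q, x, h, hq, hz, hg, m, v, hv, hx⟩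
    have hx' : x = fun i => ∑ j, v j i * b ^ (m j) := funext hx
    subst hx'
    exact ⟨(m, fun j i => ⟨v j i, hv j i⟩), h, hq, fun t => by rw [hPKz]; exact hz t, hg⟩
  choose w hw0 hwq hwz hwG using hex
  set F : S → (Fin r → Fin (n + 1) → {z // z ∈ V}) × (Fin N → Fin ((Nat.factorial M) ^ 2)) :=
    fun q => ((w q).2, fun t => col (fun j i => ((w q).2 j i).1) t (fun α => ex (w q).1 α))
    with hF
  have hinj : Function.Injective F := by
    intro q q' hqq
    rw [hF] at hqq
    simp only [Prod.mk.injEq] at hqq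
    obtain ⟨hc, hcl⟩ := hqq
    have hz := hwz q
    have hz' := hwz q'
    have h0' := hw0 q'
    have hq' := hwq q'
    rw [← hc] at hz' hcl
    have hcomp : ∀ t, ∀ u : ℤ, ∑ α ∈ (GG (fun j i => ((w q).2 j i).1) (PK t)).support.filter
        (fun α => ((ex (w q').1 α : ℕ) : ℤ) - ex (w q).1 α = u),
        coeff α (GG (fun j i => ((w q).2 j i).1) (PK t)) * b ^ (ex (w q).1 α) = 0 := by
      intro t
      refine hcol (fun j i => ((w q).2 j i).1) t (fun α => ex (w q).1 α)
        (fun α => ex (w q').1 α) ?_ ?_ (congrFun hcl t)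
      · rw [← eval_powV]
        exact hz t
      · rw [← eval_powV]
        exact hz' t
    obtain ⟨l, ⟨κ, hpb⟩, hpF⟩ := joinedC b (fun j i => ((w q).2 j i).1) (w q).1 (w q').1
    have hpP : ∀ t, aeval (cur (fun j i => ((w q).2 j i).1 * b ^ ((w q).1 j)) l) (PK t) = 0 :=
      fun t => hpF (PK t) (D t) (hPKh t) (hcomp t)
    have hinjK := FaithfulSMul.algebraMap_injective (𝓞 K) K
    let ψ : Polynomial (𝓞 K) →+* Polynomial K := Polynomial.mapRingHom (algebraMap (𝓞 K) K)
    have hψinj : Function.Injective ψ := Polynomial.map_injective _ hinjK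
    let c : Fin r → Fin (n + 1) → K :=
      fun j i => algebraMap (𝓞 K) K (((w q).2 j i).1 * b ^ ((w q).1 j))
    have hψ : ∀ i, ψ (cur (fun j i => ((w q).2 j i).1 * b ^ ((w q).1 j)) l i) = cur c l i := by
      intro i
      unfold cur
      rw [map_sum]
      refine Finset.sum_congr rfl fun j _ => ?_
      simp [ψ, c]
    have hxc : (fun i => algebraMap (𝓞 K) K (∑ j, ((w q).2 j i).1 * b ^ ((w q).1 j))) =
        fun i => ∑ j, c j i := by
      funext i
      rw [map_sum]
    have hconst : ∀ i j, cur c l i * Polynomial.C (∑ t, c t j) =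
        cur c l j * Polynomial.C (∑ t, c t i) := by
      by_contra hcon
      push Not at hcon
      obtain ⟨i, j, hij⟩ := hcon
      apply hwG q
      rw [hxc]
      refine hG3 K c l ?_ ⟨i, j, hij⟩
      rintro _ ⟨_, ⟨t, rfl⟩, rfl⟩
      have h1 := congrArg ψ (hpP t)
      rw [hPK] at h1
      simp only at h1
      rw [map_zero, aeval_map_algebraMap, aeval_def, MvPolynomial.hom_eval₂] at h1
      rw [aeval_def, MvPolynomial.eval₂_map, ← h1]
      have h2 : ψ ∘ cur (fun j i => ((w q).2 j i).1 * b ^ ((w q).1 j)) l = cur c l := funext hψ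
      have h3 : (algebraMap k (Polynomial K)).comp (algebraMap (𝓞 k) k) =
          ψ.comp (algebraMap (𝓞 k) (Polynomial (𝓞 K))) := by
        refine RingHom.ext fun a => ?_
        show algebraMap k (Polynomial K) (algebraMap (𝓞 k) k a) =
          ψ (algebraMap (𝓞 k) (Polynomial (𝓞 K)) a)
        rw [Polynomial.algebraMap_apply, Polynomial.algebraMap_apply]
        have h5 : ψ (Polynomial.C (algebraMap (𝓞 k) (𝓞 K) a)) =
            Polynomial.C (algebraMap (𝓞 K) K (algebraMap (𝓞 k) (𝓞 K) a)) := by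
          show Polynomial.map _ (Polynomial.C _) = _
          rw [Polynomial.map_C]
        rw [h5]
        rfl
      rw [h3]
      congr 1
      exact h2.symm
    have hbk : b ^ κ ≠ 0 := pow_ne_zero _ hb0
    apply Subtype.ext
    rw [hwq q, hq']
    refine mk_eq _ _ _ _ fun i j => ?_
    rw [← hc]
    apply mul_left_cancel₀ hbk
    apply hinjK
    have h1 := congrArg (Polynomial.eval (algebraMap (𝓞 K) K b)) (hconst i j)
    rw [Polynomial.eval_mul, Polynomial.eval_mul, Polynomial.eval_C, Polynomial.eval_C,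
      ← hψ i, ← hψ j] at h1
    have h2 : ∀ i, (ψ (cur (fun j i => ((w q).2 j i).1 * b ^ ((w q).1 j)) l i)).eval
        (algebraMap (𝓞 K) K b) =
        algebraMap (𝓞 K) K (b ^ κ * ∑ j, ((w q).2 j i).1 * b ^ ((w q').1 j)) := by
      intro i
      rw [← hpb i]
      show (Polynomial.map _ _).eval _ = _
      rw [Polynomial.eval_map, Polynomial.eval₂_at_apply]
    have h3 : ∀ i, ∑ t, c t i = algebraMap (𝓞 K) K (∑ j, ((w q).2 j i).1 * b ^ ((w q).1 j)) :=
      fun i => (congrFun hxc i).symm
    rw [h2, h2, h3, h3, ← map_mul, ← map_mul] at h1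
    rw [show b ^ κ * ((∑ j, ((w q).2 j i).1 * b ^ ((w q).1 j)) *
        ∑ j', ((w q).2 j' j).1 * b ^ ((w q').1 j')) =
        (b ^ κ * ∑ j', ((w q).2 j' j).1 * b ^ ((w q').1 j')) *
        ∑ j, ((w q).2 j i).1 * b ^ ((w q).1 j) by ring, ← h1]
    congr 1
    ring
  have hfin : Finite S := Finite.of_injective F hinj
  have hcard : Nat.card S ≤ V.card ^ ((n + 1) * r) * ((Nat.factorial M) ^ 2) ^ N := by
    have h1 := Nat.card_le_card_of_injective F hinj
    refine h1.trans (le_of_eq ?_)
    rw [Nat.card_eq_fintype_card, Fintype.card_prod]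
    congr 1
    · rw [Fintype.card_fun, Fintype.card_fun, Fintype.card_coe, Fintype.card_fin,
        Fintype.card_fin, ← pow_mul]
    · rw [Fintype.card_fun, Fintype.card_fin, Fintype.card_fin]
  have hSfin : S.Finite := Set.toFinite S
  rw [← hSfin.cast_ncard_eq]
  have h3 : S.ncard ≤ V.card ^ ((n + 1) * r) * ((Nat.factorial M) ^ 2) ^ N := hcard
  exact_mod_cast h3


end Pool.Agent.Helper6K9.EX
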