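import Mathlib
import Pool.Agent.Helper6K9.EX.Cnt

set_option autoImplicit false
set_option linter.unusedSectionVars false

/-! # The universal hypersurface, and the height bound -/

namespace Pool.Agent.Helper6K9.EX

open Finset NumberField MvPolynomial Height Height.AdmissibleAbsValues Pool.Agent.H458.Sp
  Pool.Agent.H533R3.SL Pool.Agent.TH409.SH

/-- **Finitely many universal formulas** for a hypersurface which contains all nonconstant curves
with `r` terms. -/
theorem exists_univ (n N d r : ℕ) (hd : 1 ≤ d) :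
    ∃ 𝓛 : Finset (MvPolynomial (Fin (n + 1)) (AA n N d)), (∀ g ∈ 𝓛, ∃ e, g.IsHomogeneous e) ∧
      ∀ (k : Type) [Field k] [Infinite k] (P : Fin N → MvPolynomial (Fin (n + 1)) k),
        (∀ t, ∃ e, e ≤ d ∧ (P t).IsHomogeneous e) → (Ideal.span (Set.range P)).IsPrime →
        ¬ Uniruled (Ideal.span (Set.range P)) →
        ∃ g ∈ 𝓛, MvPolynomial.map (coefHom d P) g ∉ Ideal.span (Set.range P) ∧
          ∀ (L : Type) [Field L] [Algebra k L] (c : Fin r → Fin (n + 1) → L) (l : Fin r → ℕ),
            (∀ t, aeval (cur c l) (P t) = 0) →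
            (∃ i i', cur c l i * Polynomial.C (∑ j, c j i') ≠
              cur c l i' * Polynomial.C (∑ j, c j i)) →
            aeval (fun a => ∑ j, c j a) (MvPolynomial.map (coefHom d P) g) = 0 := by
  classical
  choose H hH1 hH2 using fun (q : Set ((Fin r → Fin (d + 1)) × (Fin r → Fin (d + 1))) ×
    Fin (n + 1) × Fin (n + 1) × Fin r) =>
    exists_list n N d r (rep d q.1) q.2.1 q.2.2.1 (rep d q.1 q.2.2.2)
  refine ⟨(Finset.univ.pi H).image (fun h => ∏ q, h q (Finset.mem_univ q)), ?_, ?_⟩
  · intro g hg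
    rw [Finset.mem_image] at hg
    obtain ⟨h, hh, rfl⟩ := hg
    rw [Finset.mem_pi] at hh
    choose e he using fun q => hH1 q _ (hh q (Finset.mem_univ q))
    exact ⟨∑ q, e q, MvPolynomial.IsHomogeneous.prod _ _ _ fun q _ => he q⟩
  · intro k _ _ P hP hprime hnu
    choose g hg1 hg2 hg3 using fun q => hH2 q k P hP hprime hnu
    refine ⟨∏ q, g q, Finset.mem_image.2 ⟨fun q _ => g q, by
      rw [Finset.mem_pi]
      exact fun q _ => hg1 q, rfl⟩, ?_, ?_⟩
    · rw [map_prod, hprime.prod_mem_iff]
      push Not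
      exact fun q _ => hg2 q
    · intro L _ _ c l hz ⟨i, i', hc⟩
      have hp := pat_rep d l
      have hz' : ∀ t, MvPolynomial.aeval (cur c (rep d (pat d l))) (P t) = 0 := by
        intro t
        obtain ⟨e, he, hFe⟩ := hP t
        exact cur_zero_transfer d l _ hp.symm c (P t) e he hFe (hz t)
      have hc' : cur c (rep d (pat d l)) i * Polynomial.C (∑ j, c j i') ≠
          cur c (rep d (pat d l)) i' * Polynomial.C (∑ j, c j i) := by
        intro h
        exact hc (cur_const_transfer d hd _ l hp c i i' _ _ h)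
      obtain ⟨j, hj⟩ := exists_exponent c _ i i' _ _ hc'
      have h1 := hg3 (pat d l, i, i', j) L c hz' hj
      rw [map_prod, map_prod]
      exact Finset.prod_eq_zero (Finset.mem_univ (pat d l, i, i', j)) h1

variable {n r : ℕ}

/-- The height bound off a hypersurface which contains the nonconstant curves with `r` terms (proof
adapted from the library theorem `nonuniruled_bound`). -/
theorem height_of_G (k : Type) [Field k] [NumberField k] {N : ℕ}
    (P : Fin N → MvPolynomial (Fin (n + 1)) (𝓞 k)) (d : ℕ) (hd : 1 ≤ d) (A : ℝ) (hA : 1 ≤ A)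
    (hP : ∀ i, (∃ e, e ≤ d ∧ (P i).IsHomogeneous e) ∧ nrm (P i) ≤ A) (hr : 1 ≤ r)
    (G : MvPolynomial (Fin (n + 1)) k)
    (hG3 : ∀ (L : Type) [Field L] [Algebra k L] (c : Fin r → Fin (n + 1) → L) (l : Fin r → ℕ),
        (∀ F ∈ (MvPolynomial.map (algebraMap (𝓞 k) k)) '' Set.range P,
          MvPolynomial.aeval (cur c l) F = 0) →
        (∃ i i', cur c l i * Polynomial.C (∑ j, c j i') ≠
          cur c l i' * Polynomial.C (∑ j, c j i)) →
        MvPolynomial.aeval (fun i => ∑ j, c j i) G = 0)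
    (K : Type) [Field K] [NumberField K] [Algebra k K] (t : K) (l : Fin r → ℕ)
    (v : Fin r → Fin (n + 1) → K) (x : Fin (n + 1) → K) (hx : OnSparse t l v x)
    (hzero : IsZero (Set.range P) x) (hGx : aeval x G ≠ 0) :
    ah K x ≤ (1 + 8 * (4 * d) ^ r) *
      (d * ah K (fun q : Fin r × Fin (n + 1) => v q.1 q.2) + Real.log (A * r ^ d)) := by
  classical
  have hz : ∀ F' ∈ (MvPolynomial.map ((algebraMap k K).comp (algebraMap (𝓞 k) k))) ''
      (Set.range P), aeval x F' = 0 := by
    rintro _ ⟨F, hF, rfl⟩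
    rw [← MvPolynomial.map_map, aeval_map_algebraMap]
    exact hzero F hF
  refine ah_bound d A x (Height.logHeight (fun q : Fin r × Fin (n + 1) => v q.1 q.2)) ?_
  rcases dichK _ d hd A hA (hyps (k := k) (K := K) (Set.range P) d A (by
    rintro _ ⟨i, rfl⟩
    exact hP i)) hr t l v x hx.1 hx.2 hz with
    ⟨lam, hcur, i, i', hc⟩ | h
  · exfalso
    apply hGx
    have hxf : x = fun i => ∑ j, t ^ (l j) * v j i := funext hx.2
    rw [hxf]
    refine hG3 K (fun j i => t ^ (l j) * v j i) lam ?_ ⟨i, i', ?_⟩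
    · rintro _ ⟨F, hF, rfl⟩
      have h1 := hcur _ ⟨F, hF, rfl⟩
      rw [← MvPolynomial.map_map, aeval_map_algebraMap] at h1
      exact h1
    · rw [← hx.2 i', ← hx.2 i]
      exact hc
  · have h2 := log_bound d A hA hr _ v x h
    refine h2.trans (le_of_eq ?_)
    unfold bd
    push_cast
    ring

end Pool.Agent.Helper6K9.EX
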