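import Mathlib
import Pool.Agent.Helper6K9.EX.Spec
import Pool.Agent.Y215.SK.FinB

set_option autoImplicit false
set_option linter.unusedSectionVars false

/-! # The exceptional set for short sums of elements of a group of finite rank -/

namespace Pool.Agent.Helper6K9.EX

open Finset MvPolynomial NumberField Height
open Pool.Agent.Helper259.AbsHt Pool.Agent.H533R3.SL Pool.Agent.Y215.SK

variable {n N s r : ℕ} {k : Type} [Field k]

/-- `x` is a vector of homogeneous coordinates of a point on the closed set `P = 0`, but not on the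
closed set `G = 0` -/
def OnOffs {F : Type} [Field F] [Algebra k F] (P : Fin N → MvPolynomial (Fin (n + 1)) k)
    (G : Fin s → MvPolynomial (Fin (n + 1)) k) (x : Fin (n + 1) → F) : Prop :=
  x ≠ 0 ∧ (∀ i, aeval x (P i) = 0) ∧ ∃ i, aeval x (G i) ≠ 0

/-- the rational map `T ↦ (p_0 (T) : … : p_n (T))` takes two different values -/
def NonConst {F : Type} [Field F] (p : Fin (n + 1) → Polynomial F) : Prop :=
  ∃ i j a b, (p i).eval a * (p j).eval b ≠ (p j).eval a * (p i).eval b

/-- every nonconstant rational curve on `P = 0` with at most `r` terms is contained in `G = 0` -/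
def CurvesIn [Algebra k Qbar] (r : ℕ) (P : Fin N → MvPolynomial (Fin (n + 1)) k)
    (G : Fin s → MvPolynomial (Fin (n + 1)) k) : Prop :=
  ∀ (l : Fin r → ℕ) (c : Fin r → Fin (n + 1) → Qbar), NonConst (cur c l) →
    (∀ i, aeval (cur c l) (P i) = 0) → ∀ i, aeval (cur c l) (G i) = 0

/-- every nonconstant rational curve on `P = 0` is contained in `G = 0` -/
def AllCurvesIn [Algebra k Qbar] (P : Fin N → MvPolynomial (Fin (n + 1)) k)
    (G : Fin s → MvPolynomial (Fin (n + 1)) k) : Prop :=
  ∀ p : Fin (n + 1) → Polynomial Qbar, NonConst p →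
    (∀ i, aeval p (P i) = 0) → ∀ i, aeval p (G i) = 0

/-- the height bound for sums of `r` vectors multiplied by elements of a group of finite rank -/
def HeightBound [Algebra k Qbar] (r : ℕ) (P : Fin N → MvPolynomial (Fin (n + 1)) k)
    (G : Fin s → MvPolynomial (Fin (n + 1)) k) : Prop :=
  ∀ Γ : Subgroup Qbarˣ, Γ.FG → ∃ C : ℝ, ∀ (u : Fin r → Qbarˣ) (V : Fin r → Fin (n + 1) → Qbar),
    (∀ j, u j ∈ DivHull Γ) → OnOffs P G (psum Finset.univ u V) →
    absLogHeight (psum Finset.univ u V) ≤ C * (1 + hV V)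

/-- finiteness for sums of `r` vectors of bounded height multiplied by elements of a group of finite
rank, over all number fields -/
def FiniteSums [Algebra k Qbar] (r : ℕ) (P : Fin N → MvPolynomial (Fin (n + 1)) k)
    (G : Fin s → MvPolynomial (Fin (n + 1)) k) : Prop :=
  ∀ (K : Type) [Field K] [NumberField K] (φ : K →+* Qbar) (Γ : Subgroup Qbarˣ), Γ.FG → ∀ B : ℝ,
    {p : Projectivization K (Fin (n + 1) → K) | ∃ (y : Fin (n + 1) → K) (hy : y ≠ 0),
      p = Projectivization.mk K y hy ∧ OnOffs P G (fun a => φ (y a)) ∧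
      ∃ (u : Fin r → Qbarˣ) (V : Fin r → Fin (n + 1) → Qbar), (∀ j, u j ∈ DivHull Γ) ∧
        hV V ≤ B ∧ psum Finset.univ u V = fun a => φ (y a)}.Finite

/-- finiteness for the points `∑ 2 ^ (m l_j) v_j`, `m = 0, 1, 2, …`, for fixed vectors over number
fields -/
def FinitePowers [Algebra k Qbar] (r : ℕ) (P : Fin N → MvPolynomial (Fin (n + 1)) k)
    (G : Fin s → MvPolynomial (Fin (n + 1)) k) : Prop :=
  ∀ (K : Type) [Field K] [NumberField K] (φ : K →+* Qbar) (v : Fin r → Fin (n + 1) → K)
    (l : Fin r → ℕ),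
    {p : Projectivization K (Fin (n + 1) → K) | ∃ (m : ℕ) (y : Fin (n + 1) → K) (hy : y ≠ 0),
      (y = fun i => ∑ j, (2 : K) ^ (m * l j) * v j i) ∧
      p = Projectivization.mk K y hy ∧ OnOffs P G (fun a => φ (y a))}.Finite

theorem nonconst_mul {F : Type} [Field F] [Infinite F] {p : Fin (n + 1) → Polynomial F}
    (hp : ∃ i j, p i * Polynomial.C ((p j).eval 1) ≠ p j * Polynomial.C ((p i).eval 1)) :
    NonConst p := by
  obtain ⟨i, j, h⟩ := hp
  by_contra hcon
  unfold NonConst at hcon
  push Not at hcon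
  apply h
  apply Polynomial.funext
  intro a
  rw [Polynomial.eval_mul, Polynomial.eval_mul, Polynomial.eval_C, Polynomial.eval_C]
  exact hcon i j a 1

/-- the curves in `G = 0`, over all extensions of `k` -/
theorem curves_all [Algebra k Qbar] {P : Fin N → MvPolynomial (Fin (n + 1)) k}
    {G : Fin s → MvPolynomial (Fin (n + 1)) k} (h : CurvesIn r P G) (i : Fin s)
    (L : Type) [Field L] [Algebra k L] (c : Fin r → Fin (n + 1) → L) (l : Fin r → ℕ)
    (h0 : ∀ i, MvPolynomial.aeval (cur c l) (P i) = 0)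
    (hc : ∃ i i', cur c l i * Polynomial.C (∑ j, c j i') ≠
      cur c l i' * Polynomial.C (∑ j, c j i)) :
    MvPolynomial.aeval (fun i => ∑ j, c j i) (G i) = 0 := by
  by_contra hG
  obtain ⟨v, hv1, ⟨a, b, hab⟩, hv3⟩ := descend (K := Qbar) P (G i) l c h0 hc hG
  apply hv3
  have h1 := h l v (nonconst_mul ⟨a, b, by rw [cur_eval_one, cur_eval_one]; exact hab⟩) hv1 i
  have h2 : MvPolynomial.aeval (fun i => ∑ j, v j i) (G i) =
      (aeval (cur v l) (G i) : Polynomial Qbar).eval 1 := by
    have h3 : (aeval (cur v l) (G i) : Polynomial Qbar).eval 1 =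
        MvPolynomial.eval₂ ((Polynomial.evalRingHom (1 : Qbar)).comp
          (algebraMap k (Polynomial Qbar)))
          (fun i => Polynomial.evalRingHom (1 : Qbar) (cur v l i)) (G i) := by
      rw [MvPolynomial.aeval_def]
      exact MvPolynomial.hom_eval₂ (G i) _ (Polynomial.evalRingHom (1 : Qbar)) _
    rw [h3, MvPolynomial.aeval_def]
    congr 1
    · refine RingHom.ext fun a => ?_
      show _ = Polynomial.eval 1 (algebraMap k (Polynomial Qbar) a)
      rw [Polynomial.algebraMap_apply]
      show _ = Polynomial.eval 1 (Polynomial.C _)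
      rw [Polynomial.eval_C]
    · funext i
      exact (cur_eval_one v l i).symm
  rw [h2, h1, Polynomial.eval_zero]

/-- from curves to heights -/
theorem height_of_curves [NumberField k] [Algebra k Qbar]
    {P : Fin N → MvPolynomial (Fin (n + 1)) k}
    (hP : ∀ i, ∃ e, (P i).IsHomogeneous e) {G : Fin s → MvPolynomial (Fin (n + 1)) k}
    (hG : ∀ i, ∃ e, (G i).IsHomogeneous e) (h : CurvesIn r P G) : HeightBound r P G := by
  classical
  intro Γ hΓ
  choose C hC using fun i => mult_bound P hP (G i) (hG i)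
    (fun L _ _ c l h0 hc => curves_all h i L c l h0 hc) Γ hΓ
  refine ⟨∑ i, |C i| + r + 1, fun u V hu ⟨hx0, hx1, i, hxi⟩ => ?_⟩
  obtain ⟨J, hJ, hh⟩ := hC i u V hu ⟨hx0, hx1, hxi⟩
  obtain ⟨c, hc, hc2⟩ := good_prop J u V hJ hx0
  have hV0 : 0 ≤ hV V := absLogHeight_nonneg _
  have hr : (0 : ℝ) ≤ r := Nat.cast_nonneg r
  have h3 : |C i| ≤ ∑ i, |C i| :=
    Finset.single_le_sum (f := fun i => |C i|) (fun _ _ => abs_nonneg _) (Finset.mem_univ i)
  have h4 : C i * (1 + hV V) ≤ (∑ i, |C i|) * (1 + hV V) :=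
    mul_le_mul_of_nonneg_right ((le_abs_self _).trans h3) (by linarith)
  have h5 : 0 ≤ (r : ℝ) * hV V := mul_nonneg hr hV0
  rw [← absLogHeight_smul _ hc, ← hc2]
  have h6 := psum_height J u V
  nlinarith

/-- from heights to finiteness -/
theorem finite_of_height [Algebra k Qbar] {P : Fin N → MvPolynomial (Fin (n + 1)) k}
    {G : Fin s → MvPolynomial (Fin (n + 1)) k} (h : HeightBound r P G) : FiniteSums r P G := by
  intro K _ _ φ Γ hΓ B
  obtain ⟨C, hC⟩ := h Γ hΓ
  refine (Pool.Agent.Y215.SK.northcott_proj K φ (|C| * (1 + B))).subset ?_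
  rintro p ⟨y, hy, rfl, hon, u, V, hu, hVB, hps⟩
  refine ⟨y, hy, rfl, ?_⟩
  rw [← hps] at hon ⊢
  have hV0 : 0 ≤ hV V := absLogHeight_nonneg _
  have h2 : C * (1 + hV V) ≤ |C| * (1 + B) :=
    mul_le_mul (le_abs_self C) (by linarith) (by linarith) (abs_nonneg C)
  linarith [hC u V hu hon]

/-- from sums to powers -/
theorem powers_of_sums [Algebra k Qbar] {P : Fin N → MvPolynomial (Fin (n + 1)) k}
    {G : Fin s → MvPolynomial (Fin (n + 1)) k} (h : FiniteSums r P G) : FinitePowers r P G := by
  classical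
  intro K _ _ φ v l
  refine (h K φ (Subgroup.closure {Units.mk0 (2 : Qbar) two_ne_zero})
    ⟨{Units.mk0 (2 : Qbar) two_ne_zero}, by simp⟩ (hV (fun j i => φ (v j i)))).subset ?_
  rintro p ⟨m, y, hy, hym, rfl, hon⟩
  refine ⟨y, hy, rfl, hon, fun j => (Units.mk0 (2 : Qbar) two_ne_zero) ^ (m * l j),
    fun j i => φ (v j i), fun j => ⟨1, one_pos, ?_⟩, le_rfl, ?_⟩
  · rw [pow_one]
    exact Subgroup.pow_mem _ (Subgroup.subset_closure (Set.mem_singleton _)) _
  · funext a
    rw [hym]
    simp only [map_sum, map_mul, map_pow, map_ofNat]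
    unfold Pool.Agent.Y215.SK.psum
    refine Finset.sum_congr rfl fun j _ => ?_
    rw [Units.val_pow_eq_pow_val, Units.val_mk0]

/-- from powers to curves -/
theorem curves_of_powers [Algebra k Qbar] {P : Fin N → MvPolynomial (Fin (n + 1)) k}
    {G : Fin s → MvPolynomial (Fin (n + 1)) k} (h : FinitePowers r P G) : CurvesIn r P G := by
  classical
  intro l c hc h0 i
  by_contra hGi
  obtain ⟨K, hK, hcK⟩ := exists_nf (Set.range fun q : Fin r × Fin (n + 1) => c q.1 q.2)
    (Set.finite_range _)
  have hcK' : ∀ j a, c j a ∈ K := fun j a => hcK _ ⟨(j, a), rfl⟩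
  let v : Fin r → Fin (n + 1) → K := fun j a => ⟨c j a, hcK' j a⟩
  let φ : K →+* Qbar := algebraMap K Qbar
  have hfin := h K φ v l
  let q : Fin (n + 1) → Polynomial Qbar := cur c l
  have hev : ∀ (F : MvPolynomial (Fin (n + 1)) k) (z : Qbar),
      aeval (fun i => (q i).eval z) F = (aeval q F : Polynomial Qbar).eval z := by
    intro F z
    have h1 : (aeval q F : Polynomial Qbar).eval z =
        MvPolynomial.eval₂ ((Polynomial.evalRingHom z).comp (algebraMap k (Polynomial Qbar)))
          (fun i => Polynomial.evalRingHom z (q i)) F := by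
      rw [MvPolynomial.aeval_def]
      exact MvPolynomial.hom_eval₂ F _ (Polynomial.evalRingHom z) _
    rw [h1, MvPolynomial.aeval_def]
    congr 1
    refine RingHom.ext fun a => ?_
    show _ = Polynomial.eval z (algebraMap k (Polynomial Qbar) a)
    rw [Polynomial.algebraMap_apply]
    show _ = Polynomial.eval z (Polynomial.C _)
    rw [Polynomial.eval_C]
  have hqv : ∀ (m : ℕ) a, (q a).eval ((2 : Qbar) ^ m) = φ (∑ j, (2 : K) ^ (m * l j) * v j a) := by
    intro m a
    show (∑ j, Polynomial.C (c j a) * Polynomial.X ^ (l j)).eval _ = _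
    rw [Polynomial.eval_finsetSum, map_sum]
    refine Finset.sum_congr rfl fun j _ => ?_
    rw [Polynomial.eval_mul, Polynomial.eval_C, Polynomial.eval_pow, Polynomial.eval_X, map_mul,
      map_pow, map_ofNat, ← pow_mul, mul_comm]
    rfl
  obtain ⟨i1, i2, z1, z2, hz⟩ := hc
  have hne0 : q i1 ≠ 0 ∨ q i2 ≠ 0 := by
    by_contra h
    push Not at h
    apply hz
    show (q i1).eval z1 * (q i2).eval z2 = (q i2).eval z1 * (q i1).eval z2
    rw [h.1, h.2]
  obtain ⟨i0, hi0⟩ : ∃ i0, q i0 ≠ 0 := hne0.elim (fun h => ⟨_, h⟩) (fun h => ⟨_, h⟩)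
  have hbad : {z : Qbar | (q i0 * aeval q (G i)).eval z = 0}.Finite :=
    Polynomial.finite_setOfPred_isRoot (mul_ne_zero hi0 hGi)
  have hfib : ∀ y : Fin (n + 1) → Qbar, y ≠ 0 →
      {z : Qbar | ∀ i j, (q i).eval z * y j = (q j).eval z * y i}.Finite := by
    intro y hy
    have h1 : ∃ i j, q i * Polynomial.C (y j) ≠ q j * Polynomial.C (y i) := by
      by_contra h
      push Not at h
      obtain ⟨j0, hj0⟩ := Function.ne_iff.1 hy
      simp only [Pi.zero_apply] at hj0
      have h2 : ∀ i, q i = q j0 * Polynomial.C (y i / y j0) := by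
        intro i
        have h3 := h i j0
        have h4 : q i * Polynomial.C (y j0) * Polynomial.C (y j0)⁻¹ =
            q j0 * Polynomial.C (y i) * Polynomial.C (y j0)⁻¹ := by rw [h3]
        rw [mul_assoc, mul_assoc, ← Polynomial.C_mul, ← Polynomial.C_mul, mul_inv_cancel₀ hj0,
          Polynomial.C_1, mul_one, ← div_eq_mul_inv] at h4
        exact h4
      apply hz
      show (q i1).eval z1 * (q i2).eval z2 = (q i2).eval z1 * (q i1).eval z2
      rw [h2 i1, h2 i2]
      simp only [Polynomial.eval_mul, Polynomial.eval_C]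
      ring
    obtain ⟨i, j, hij⟩ := h1
    refine (Polynomial.finite_setOfPred_isRoot (sub_ne_zero.2 hij)).subset ?_
    intro t ht
    have := ht i j
    show Polynomial.eval t _ = 0
    rw [Polynomial.eval_sub, Polynomial.eval_mul, Polynomial.eval_mul, Polynomial.eval_C,
      Polynomial.eval_C, this, sub_self]
  have hrep0 : ∀ p : Projectivization K (Fin (n + 1) → K),
      (fun a => φ (p.rep a)) ≠ 0 := by
    intro p h
    apply p.rep_nonzero
    funext a
    exact (map_eq_zero φ).1 (congrFun h a)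
  have hsub : Set.range (fun m : ℕ => (2 : Qbar) ^ m) ⊆
      {z : Qbar | (q i0 * aeval q (G i)).eval z = 0} ∪
      ⋃ p ∈ {p : Projectivization K (Fin (n + 1) → K) | ∃ (m : ℕ) (y : Fin (n + 1) → K)
        (hy : y ≠ 0), (y = fun i => ∑ j, (2 : K) ^ (m * l j) * v j i) ∧
        p = Projectivization.mk K y hy ∧ OnOffs P G (fun a => φ (y a))},
        {z : Qbar | ∀ i j, (q i).eval z * φ (p.rep j) = (q j).eval z * φ (p.rep i)} := by
    rintro _ ⟨m, rfl⟩
    simp only
    by_cases h : (q i0 * aeval q (G i)).eval ((2 : Qbar) ^ m) = 0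
    · exact Or.inl h
    · right
      rw [Polynomial.eval_mul] at h
      have h1 : (q i0).eval ((2 : Qbar) ^ m) ≠ 0 := left_ne_zero_of_mul h
      have h2 : (aeval q (G i) : Polynomial Qbar).eval ((2 : Qbar) ^ m) ≠ 0 :=
        right_ne_zero_of_mul h
      have h3 : (fun a => ∑ j, (2 : K) ^ (m * l j) * v j a) ≠ 0 := by
        intro h0
        apply h1
        rw [hqv, congrFun h0 i0]
        exact map_zero φ
      have h4 : (fun a => φ (∑ j, (2 : K) ^ (m * l j) * v j a)) =
          fun a => (q a).eval ((2 : Qbar) ^ m) := by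
        funext a
        exact (hqv m a).symm
      rw [Set.mem_iUnion₂]
      refine ⟨Projectivization.mk K _ h3, ⟨m, _, h3, rfl, rfl, ?_, ?_, ?_⟩, ?_⟩
      · rw [h4]
        intro h0
        exact h1 (congrFun h0 i0)
      · intro t
        rw [h4, hev]
        show Polynomial.eval _ (aeval (cur c l) (P t)) = 0
        rw [h0 t, Polynomial.eval_zero]
      · exact ⟨i, by rw [h4, hev]; exact h2⟩
      · obtain ⟨a, ha⟩ := Projectivization.exists_smul_eq_mk_rep K _ h3
        intro i j
        rw [← ha]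
        show _ * φ (((a : K) • (fun i => ∑ j, (2 : K) ^ (m * l j) * v j i)) j) =
          _ * φ (((a : K) • (fun i => ∑ j, (2 : K) ^ (m * l j) * v j i)) i)
        rw [Pi.smul_apply, Pi.smul_apply, smul_eq_mul, smul_eq_mul, map_mul, map_mul, ← hqv,
          ← hqv]
        ring
  have hinf : (Set.range (fun m : ℕ => (2 : Qbar) ^ m)).Infinite := by
    refine Set.infinite_range_of_injective ?_
    intro a b hab
    have h1 : (2 : Qbar) ^ a = 2 ^ b := hab
    have h2 : ((2 ^ a : ℕ) : Qbar) = ((2 ^ b : ℕ) : Qbar) := by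
      push_cast
      exact h1
    have h3 : (2 : ℕ) ^ a = 2 ^ b := by exact_mod_cast h2
    exact Nat.pow_right_injective le_rfl h3
  exact hinf ((hbad.union (hfin.biUnion fun p _ => hfib _ (hrep0 p))).subset hsub)

theorem allCurves_iff [Algebra k Qbar] {P : Fin N → MvPolynomial (Fin (n + 1)) k}
    {G : Fin s → MvPolynomial (Fin (n + 1)) k} :
    AllCurvesIn P G ↔ ∀ r, CurvesIn r P G := by
  constructor
  · intro h r l c hc h0 i
    exact h (cur c l) hc h0 i
  · intro h p hp h0 i
    obtain ⟨M, hM⟩ : ∃ M : ℕ, ∀ i m, M ≤ m → (p i).coeff m = 0 := by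
      refine ⟨∑ i, (p i).natDegree + 1, fun i m hm =>
        Polynomial.coeff_eq_zero_of_natDegree_lt ?_⟩
      have : (p i).natDegree ≤ ∑ i, (p i).natDegree :=
        Finset.single_le_sum (f := fun i => (p i).natDegree) (fun _ _ => Nat.zero_le _)
          (Finset.mem_univ i)
      omega
    have hp' : p = cur (fun (j : Fin M) i => (p i).coeff j) (fun j => (j : ℕ)) := by
      funext i
      unfold cur
      ext m
      rw [Polynomial.finsetSum_coeff]
      simp_rw [Polynomial.coeff_C_mul_X_pow]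
      by_cases hm : m < M
      · rw [Finset.sum_eq_single (⟨m, hm⟩ : Fin M)]
        · simp
        · intro j _ hj
          rw [if_neg]
          intro h
          apply hj
          exact Fin.ext h.symm
        · intro h
          exact absurd (Finset.mem_univ _) h
      · rw [hM i m (by omega)]
        symm
        refine Finset.sum_eq_zero fun j _ => ?_
        rw [if_neg]
        have := j.2
        omega
    rw [hp'] at hp h0 ⊢
    exact h M _ _ hp h0 i

/-- a finite system of forms with the same zeros as a set of forms -/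
theorem exists_system (S : Set (MvPolynomial (Fin (n + 1)) k)) :
    ∃ (s : ℕ) (G : Fin s → MvPolynomial (Fin (n + 1)) k), (∀ i, G i ∈ S) ∧
      ∀ F ∈ S, F ∈ Ideal.span (Set.range G) := by
  classical
  obtain ⟨T, hT, hTS⟩ := (Submodule.fg_span_iff_fg_span_finset_subset S).1
    (IsNoetherian.noetherian (Ideal.span S))
  refine ⟨T.card, fun i => (T.equivFin.symm i : MvPolynomial (Fin (n + 1)) k), fun i => ?_,
    fun F hF => ?_⟩
  · exact hT (T.equivFin.symm i).2
  · have h1 : F ∈ Submodule.span (MvPolynomial (Fin (n + 1)) k) S := Submodule.subset_span hF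
    rw [hTS] at h1
    refine Submodule.span_mono ?_ h1
    intro x hx
    exact ⟨T.equivFin ⟨x, hx⟩, by simp⟩

end Pool.Agent.Helper6K9.EX
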