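import Mathlib
import Pool.Agent.Helper6K9.EX.Set
import Pool.Agent.TH409.SH.Fin

set_option autoImplicit false
set_option linter.unusedSectionVars false

/-! # The exceptional set for the points of curves with `r` terms at arbitrary parameters -/

namespace Pool.Agent.Helper6K9.EX

open Finset MvPolynomial NumberField Height Module
open Pool.Agent.Helper259.AbsHt Pool.Agent.H533R3.SL Pool.Agent.Y215.SK

variable {n N s r : ℕ} {k : Type} [Field k]

/-- one height bound for all the points of all curves with `r` terms, at all algebraic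
parameters -/
def ParamBound [Algebra k Qbar] (r : ℕ) (P : Fin N → MvPolynomial (Fin (n + 1)) k)
    (G : Fin s → MvPolynomial (Fin (n + 1)) k) : Prop :=
  ∃ C : ℝ, ∀ (t : Qbar) (l : Fin r → ℕ) (V : Fin r → Fin (n + 1) → Qbar),
    OnOffs P G (fun i => ∑ j, t ^ l j * V j i) →
    absLogHeight (fun i => ∑ j, t ^ l j * V j i) ≤ C * (1 + hV V)

theorem clear [NumberField k] (P : MvPolynomial (Fin (n + 1)) k) (e : ℕ)
    (hP : P.IsHomogeneous e) :
    ∃ (P' : MvPolynomial (Fin (n + 1)) (𝓞 k)) (a : k), a ≠ 0 ∧ P'.IsHomogeneous e ∧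
      MvPolynomial.map (algebraMap (𝓞 k) k) P' = C a * P := by
  classical
  obtain ⟨b, hb⟩ := IsLocalization.exist_integer_multiples_of_finset
    (nonZeroDivisors (𝓞 k)) (P.support.image (fun α => coeff α P))
  have hb' : ∀ α ∈ P.support, ∃ g : 𝓞 k, algebraMap (𝓞 k) k g = ((b : 𝓞 k) : k) * coeff α P := by
    intro α hα
    obtain ⟨g, hg⟩ := hb _ (Finset.mem_image_of_mem _ hα)
    refine ⟨g, hg.trans ?_⟩
    rw [Algebra.smul_def]
  choose! g hg using hb'
  refine ⟨∑ α ∈ P.support, monomial α (g α), ((b : 𝓞 k) : k), ?_, ?_, ?_⟩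
  · intro h
    exact nonZeroDivisors.ne_zero b.2 ((FaithfulSMul.algebraMap_eq_zero_iff (𝓞 k) k).1 h)
  · refine MvPolynomial.IsHomogeneous.sum _ _ _ fun α hα => ?_
    refine MvPolynomial.isHomogeneous_monomial _ ?_
    have h1 := hP (MvPolynomial.mem_support_iff.1 hα)
    rw [Finsupp.weight_apply, Finsupp.sum_fintype _ _ (by simp)] at h1
    rw [Finsupp.degree_eq_sum]
    simpa using h1
  · rw [map_sum]
    simp_rw [MvPolynomial.map_monomial]
    conv_rhs => rw [P.as_sum, Finset.mul_sum]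
    refine Finset.sum_congr rfl fun α hα => ?_
    rw [hg α hα, C_mul_monomial]

theorem param_of_curves [NumberField k] [Algebra k Qbar]
    {P : Fin N → MvPolynomial (Fin (n + 1)) k}
    (hP : ∀ i, ∃ e, (P i).IsHomogeneous e) {G : Fin s → MvPolynomial (Fin (n + 1)) k}
    (h : CurvesIn r P G) : ParamBound r P G := by
  classical
  choose e he using hP
  choose P' a ha hP'h hP' using fun i => clear (P i) (e i) (he i)
  rcases Nat.eq_zero_or_pos r with rfl | hr
  · refine ⟨0, fun t l V hx => ?_⟩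
    exfalso
    apply hx.1
    funext i
    simp
  set d : ℕ := ∑ i, e i + 1 with hd
  set A : ℝ := ∑ i, Pool.Agent.H458.Sp.nrm (P' i) + 1 with hA
  have hd1 : 1 ≤ d := by omega
  have hnn : ∀ i, 0 ≤ Pool.Agent.H458.Sp.nrm (P' i) := fun i => Pool.Agent.H458.Sp.nrm_nonneg _
  have hA1 : 1 ≤ A := by
    rw [hA]
    have := Finset.sum_nonneg (s := Finset.univ) (fun i _ => hnn i)
    linarith
  set FF : Set (MvPolynomial (Fin (n + 1)) (𝓞 k)) := Set.range P' with hFF
  have hF : ∀ F ∈ FF, (∃ e, e ≤ d ∧ F.IsHomogeneous e) ∧ Pool.Agent.H458.Sp.nrm F ≤ A := by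
    rintro _ ⟨i, rfl⟩
    refine ⟨⟨e i, ?_, hP'h i⟩, ?_⟩
    · have := Finset.single_le_sum (f := e) (fun _ _ => Nat.zero_le _) (Finset.mem_univ i)
      omega
    · have := Finset.single_le_sum (f := fun i => Pool.Agent.H458.Sp.nrm (P' i))
        (fun i _ => hnn i) (Finset.mem_univ i)
      linarith
  have hr1 : (1 : ℝ) ≤ r := by exact_mod_cast hr
  have hArd : 1 ≤ A * (r : ℝ) ^ d := one_le_mul_of_one_le_of_one_le hA1 (one_le_pow₀ hr1)
  have hlog : 0 ≤ Real.log (A * (r : ℝ) ^ d) := Real.log_nonneg hArd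
  refine ⟨(1 + 8 * (4 * d) ^ r) * (d + Real.log (A * r ^ d)), ?_⟩
  intro t l V ⟨hx0, hx1, i0, hxi⟩
  -- a number field which contains everything
  let bk := Module.finBasis ℚ k
  obtain ⟨K, hK, hcK⟩ := exists_nf ((Set.range fun q : Fin r × Fin (n + 1) => V q.1 q.2) ∪ {t} ∪
    Set.range fun i => algebraMap k Qbar (bk i))
    (((Set.finite_range _).union (Set.finite_singleton _)).union (Set.finite_range _))
  have hVK : ∀ j a, V j a ∈ K := fun j a => hcK _ (Or.inl (Or.inl ⟨(j, a), rfl⟩))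
  have htK : t ∈ K := hcK _ (Or.inl (Or.inr rfl))
  have hkK : ∀ z : k, algebraMap k Qbar z ∈ K := by
    intro z
    rw [← bk.sum_repr z, map_sum]
    refine sum_mem fun i _ => ?_
    rw [Algebra.smul_def, map_mul]
    refine mul_mem ?_ (hcK _ (Or.inr ⟨i, rfl⟩))
    have h1 : algebraMap k Qbar (algebraMap ℚ k (bk.repr z i)) =
        algebraMap ℚ Qbar (bk.repr z i) := by
      rw [← RingHom.comp_apply]
      congr 1
      exact Subsingleton.elim _ _
    rw [h1]
    exact K.algebraMap_mem _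
  let ψ : k →+* K := (algebraMap k Qbar).codRestrict K hkK
  let _ : Algebra k K := ψ.toAlgebra
  have : IsScalarTower k K Qbar := IsScalarTower.of_algebraMap_eq fun z => rfl
  let v : Fin r → Fin (n + 1) → K := fun j a => ⟨V j a, hVK j a⟩
  let t' : K := ⟨t, htK⟩
  let x : Fin (n + 1) → K := fun i => ∑ j, t' ^ (l j) * v j i
  let φ : K →+* Qbar := algebraMap K Qbar
  have hφx : (fun i => φ (x i)) = fun i => ∑ j, t ^ l j * V j i := by
    funext i
    show φ (∑ j, t' ^ (l j) * v j i) = _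
    rw [map_sum]
    refine Finset.sum_congr rfl fun j _ => ?_
    rw [map_mul, map_pow]
    rfl
  rw [← hφx] at hx0 hx1 hxi ⊢
  have hae : ∀ F : MvPolynomial (Fin (n + 1)) k, aeval (fun i => φ (x i)) F = φ (aeval x F) := by
    intro F
    exact (MvPolynomial.map_aeval (R := k) x (algebraMap K Qbar) F).symm ▸
      (by
        rw [MvPolynomial.aeval_def, MvPolynomial.coe_eval₂Hom,
          ← IsScalarTower.algebraMap_eq])
  have hxK0 : x ≠ 0 := by
    intro h0
    apply hx0
    funext i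
    rw [congrFun h0 i]
    exact map_zero φ
  have hxK1 : ∀ i, aeval x (P i) = 0 := fun i => by
    have h1 := hx1 i
    rw [hae] at h1
    exact (map_eq_zero φ).1 h1
  have hxKG : aeval x (G i0) ≠ 0 := by
    intro h1
    apply hxi
    rw [hae, h1, map_zero]
  have hz : ∀ F' ∈ (MvPolynomial.map ((algebraMap k K).comp (algebraMap (𝓞 k) k))) '' FF,
      aeval x F' = 0 := by
    rintro _ ⟨_, ⟨i, rfl⟩, rfl⟩
    rw [← MvPolynomial.map_map, aeval_map_algebraMap, hP', map_mul, hxK1, mul_zero]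
  rcases Pool.Agent.TH409.SH.dichK _ d hd1 A hA1
    (Pool.Agent.TH409.SH.hyps (k := k) (K := K) FF d A hF) hr t' l v x hxK0 (fun i => rfl) hz with
    ⟨lam, hcur, i, i', hc⟩ | hb
  · exfalso
    apply hxKG
    refine curves_all h i0 K (fun j i => t' ^ (l j) * v j i) lam ?_ ⟨i, i', hc⟩
    intro i
    have h1 := hcur _ ⟨_, ⟨i, rfl⟩, rfl⟩
    rw [← MvPolynomial.map_map, aeval_map_algebraMap, hP', map_mul] at h1
    refine (mul_eq_zero.1 h1).resolve_left ?_
    rw [aeval_C, Polynomial.algebraMap_apply]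
    intro h2
    exact ha i ((map_eq_zero _).1 (Polynomial.C_eq_zero.1 h2))
  · have h2 := Pool.Agent.TH409.SH.log_bound d A hA1 hr _ v x hb
    have hD : (0 : ℝ) < finrank ℚ K := finrank_pos' K
    have h3 : absLogHeight (fun i => φ (x i)) = logHeight x / finrank ℚ K :=
      absLogHeight_eq K φ x
    have h4 : hV V = logHeight (fun q : Fin r × Fin (n + 1) => v q.1 q.2) / finrank ℚ K :=
      absLogHeight_eq K φ (fun q : Fin r × Fin (n + 1) => v q.1 q.2)
    have hV0 : 0 ≤ hV V := absLogHeight_nonneg _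
    rw [h3, div_le_iff₀ hD]
    have h5 : logHeight (fun q : Fin r × Fin (n + 1) => v q.1 q.2) = hV V * finrank ℚ K := by
      rw [h4]
      field_simp
    rw [h5] at h2
    refine h2.trans ?_
    push_cast
    have h6 : (d : ℝ) * (hV V * finrank ℚ K) + finrank ℚ K * Real.log (A * r ^ d) ≤
        (d + Real.log (A * r ^ d)) * (1 + hV V) * finrank ℚ K := by
      have h7 : 0 ≤ Real.log (A * (r : ℝ) ^ d) * hV V * finrank ℚ K := by positivity
      have h8 : (0 : ℝ) ≤ d * finrank ℚ K := by positivity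
      nlinarith
    calc (1 + 8 * (4 * (d : ℝ)) ^ r) *
          (d * (hV V * finrank ℚ K) + finrank ℚ K * Real.log (A * r ^ d)) ≤
        (1 + 8 * (4 * (d : ℝ)) ^ r) *
          ((d + Real.log (A * r ^ d)) * (1 + hV V) * finrank ℚ K) :=
          mul_le_mul_of_nonneg_left h6 (by positivity)
      _ = _ := by ring

theorem powers_of_param [Algebra k Qbar] {P : Fin N → MvPolynomial (Fin (n + 1)) k}
    {G : Fin s → MvPolynomial (Fin (n + 1)) k} (h : ParamBound r P G) : FinitePowers r P G := by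
  classical
  intro K _ _ φ v l
  obtain ⟨C, hC⟩ := h
  refine (Pool.Agent.Y215.SK.northcott_proj K φ (C * (1 + hV (fun j i => φ (v j i))))).subset ?_
  rintro p ⟨m, y, hy, hym, rfl, hon⟩
  refine ⟨y, hy, rfl, ?_⟩
  have h1 : (fun a => φ (y a)) = fun i => ∑ j, ((2 : Qbar) ^ m) ^ l j * φ (v j i) := by
    funext a
    rw [hym]
    simp only [map_sum, map_mul, map_pow, map_ofNat, pow_mul]
  rw [h1] at hon ⊢
  exact hC _ l _ hon

end Pool.Agent.Helper6K9.EX
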