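import Mathlib
import Pool.Agent.Helper6K9.EX.Set
import Pool.Agent.Helper6K9.EX.Hyp
import Pool.Agent.R849.PR.Gen
import Pool.Agent.R870.Cyc

set_option autoImplicit false
set_option linter.unusedSectionVars false

/-! # Points with small, torsion and cyclotomic multipliers, over all fields at once -/

namespace Pool.Agent.Helper6K9.EX

open Finset MvPolynomial
open Pool.Agent.Helper259.AbsHt Pool.Agent.H533R3.SL Pool.Agent.Y215.SP

variable {n N s r : ℕ} {k : Type} [Field k]

/-- Over every extension `L` of `k` with an embedding of the algebraic numbers, for all vectors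
`V_1, …, V_r` over `L`, at most `M` points of `P = 0` off `G = 0` have homogeneous coordinates
`∑ t_j V_j` with algebraic numbers `t_j` such that the absolute logarithmic height of
`(t_1 : … : t_r)` is less than `ε`. -/
def SmallBound (r : ℕ) (ε : ℝ) (M : ℕ) (P : Fin N → MvPolynomial (Fin (n + 1)) k)
    (G : Fin s → MvPolynomial (Fin (n + 1)) k) : Prop :=
  ∀ (L : Type) [Field L] [Algebra k L] (φ : Qbar →+* L) (V : Fin r → Fin (n + 1) → L),
    ({p : Projectivization L (Fin (n + 1) → L) | ∃ t : Fin r → Qbar, absLogHeight t < ε ∧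
      OnOffs P G (fun a => ∑ j, φ (t j) * V j a) ∧
      ∃ h : (fun a => ∑ j, φ (t j) * V j a) ≠ 0, p = Projectivization.mk L _ h}).encard ≤
        (M : ℕ∞)

/-- For all algebraic vectors `V_1, …, V_r` only finitely many points of `P = 0` off `G = 0` have
coordinates `∑ ζ_j V_j` with roots of unity `ζ_j`. -/
def TorsFin [Algebra k Qbar] (r : ℕ) (P : Fin N → MvPolynomial (Fin (n + 1)) k)
    (G : Fin s → MvPolynomial (Fin (n + 1)) k) : Prop :=
  ∀ V : Fin r → Fin (n + 1) → Qbar,
    {p : Projectivization Qbar (Fin (n + 1) → Qbar) | ∃ t : Fin r → Qbar,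
      (∀ j, ∃ m : ℕ, 0 < m ∧ t j ^ m = 1) ∧ OnOffs P G (fun a => ∑ j, t j * V j a) ∧
      ∃ h : (fun a => ∑ j, t j * V j a) ≠ 0, p = Projectivization.mk Qbar _ h}.Finite

/-- a nonconstant curve has infinitely many points for each infinite set of parameters -/
theorem curve_inf' {L : Type} [Field L] [Algebra k L] (g : MvPolynomial (Fin (n + 1)) k)
    (c : Fin r → Fin (n + 1) → L) (l : Fin r → ℕ) (hc : NonConst (cur c l))
    (hg : aeval (cur c l) g ≠ 0) (S : Set L) (hS : S.Infinite) :
    {p : Projectivization L (Fin (n + 1) → L) | ∃ z ∈ S,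
      aeval (fun a => ∑ j, z ^ l j * c j a) g ≠ 0 ∧
      ∃ h : (fun a => ∑ j, z ^ l j * c j a) ≠ 0, p = Projectivization.mk L _ h}.Infinite := by
  classical
  intro hfin
  obtain ⟨i1, i2, z1, z2, hz⟩ := hc
  let q : Fin (n + 1) → Polynomial L := cur c l
  have hqv : ∀ (z : L), (fun a => (q a).eval z) = fun a => ∑ j, z ^ l j * c j a := by
    intro z
    funext a
    show (∑ j, Polynomial.C (c j a) * Polynomial.X ^ (l j)).eval _ = _
    rw [Polynomial.eval_finsetSum]
    refine Finset.sum_congr rfl fun j _ => ?_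
    rw [Polynomial.eval_mul, Polynomial.eval_C, Polynomial.eval_pow, Polynomial.eval_X, mul_comm]
  have hne0 : q i1 ≠ 0 ∨ q i2 ≠ 0 := by
    by_contra h
    push Not at h
    apply hz
    show (q i1).eval z1 * (q i2).eval z2 = (q i2).eval z1 * (q i1).eval z2
    rw [h.1, h.2]
  obtain ⟨i0, hi0⟩ : ∃ i0, q i0 ≠ 0 := hne0.elim (fun h => ⟨_, h⟩) (fun h => ⟨_, h⟩)
  have hbad : {z : L | (q i0 * aeval q g).eval z = 0}.Finite :=
    Polynomial.finite_setOfPred_isRoot (mul_ne_zero hi0 hg)
  have hfib : ∀ y : Fin (n + 1) → L, y ≠ 0 →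
      {z : L | ∀ i j, (q i).eval z * y j = (q j).eval z * y i}.Finite := by
    intro y hy
    have h1 : ∃ i j, q i * Polynomial.C (y j) ≠ q j * Polynomial.C (y i) := by
      by_contra h
      push Not at h
      obtain ⟨j0, hj0⟩ := Function.ne_iff.1 hy
      simp only [Pi.zero_apply] at hj0
      have h2 : ∀ i, q i = q j0 * Polynomial.C (y i / y j0) := by
        intro i
        have h3 := h i j0
        have h4 : q i * Polynomial.C (y j0) * Polynomial.C (y j0)⁻¹ =
            q j0 * Polynomial.C (y i) * Polynomial.C (y j0)⁻¹ := by rw [h3]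
        rw [mul_assoc, mul_assoc, ← Polynomial.C_mul, ← Polynomial.C_mul, mul_inv_cancel₀ hj0,
          Polynomial.C_1, mul_one, ← div_eq_mul_inv] at h4
        exact h4
      apply hz
      show (q i1).eval z1 * (q i2).eval z2 = (q i2).eval z1 * (q i1).eval z2
      rw [h2 i1, h2 i2]
      simp only [Polynomial.eval_mul, Polynomial.eval_C]
      ring
    obtain ⟨i, j, hij⟩ := h1
    refine (Polynomial.finite_setOfPred_isRoot (sub_ne_zero.2 hij)).subset ?_
    intro t ht
    have := ht i j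
    show Polynomial.eval t _ = 0
    rw [Polynomial.eval_sub, Polynomial.eval_mul, Polynomial.eval_mul, Polynomial.eval_C,
      Polynomial.eval_C, this, sub_self]
  have hsub : S ⊆ {z : L | (q i0 * aeval q g).eval z = 0} ∪
      ⋃ p ∈ {p : Projectivization L (Fin (n + 1) → L) | ∃ z ∈ S,
        aeval (fun a => ∑ j, z ^ l j * c j a) g ≠ 0 ∧
        ∃ h : (fun a => ∑ j, z ^ l j * c j a) ≠ 0, p = Projectivization.mk L _ h},
        {z : L | ∀ i j, (q i).eval z * p.rep j = (q j).eval z * p.rep i} := by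
    intro z hzS
    by_cases h : (q i0 * aeval q g).eval z = 0
    · exact Or.inl h
    · right
      rw [Polynomial.eval_mul] at h
      have h1 : (q i0).eval z ≠ 0 := left_ne_zero_of_mul h
      have h2 : (aeval q g : Polynomial L).eval z ≠ 0 := right_ne_zero_of_mul h
      have h3 : (fun a => ∑ j, z ^ l j * c j a) ≠ 0 := by
        rw [← hqv]
        intro h0
        exact h1 (congrFun h0 i0)
      rw [Set.mem_iUnion₂]
      refine ⟨Projectivization.mk L _ h3, ⟨z, hzS, ?_, h3, rfl⟩, ?_⟩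
      · rw [← hqv, Pool.Agent.R849.PR.ev_poly]
        exact h2
      · obtain ⟨a, ha⟩ := Projectivization.exists_smul_eq_mk_rep L _ h3
        intro i j
        rw [← ha]
        show _ * ((a : L) • (fun i => ∑ j, z ^ l j * c j i)) j =
          _ * ((a : L) • (fun i => ∑ j, z ^ l j * c j i)) i
        rw [Pi.smul_apply, Pi.smul_apply, smul_eq_mul, smul_eq_mul, ← congrFun (hqv z) i,
          ← congrFun (hqv z) j]
        ring
  exact hS ((hbad.union (hfin.biUnion fun p _ => hfib _ p.rep_nonzero)).subset hsub)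

theorem small_of_all (d : ℕ) (hd : 1 ≤ d) [Infinite k]
    (P : Fin N → MvPolynomial (Fin (n + 1)) k)
    (hP : ∀ i, ∃ e, e ≤ d ∧ (P i).IsHomogeneous e) (G : Fin s → MvPolynomial (Fin (n + 1)) k)
    (hall : ∀ (i : Fin s) (L : Type) [Field L] [Algebra k L] (c : Fin r → Fin (n + 1) → L)
      (l : Fin r → ℕ), (∀ i, MvPolynomial.aeval (cur c l) (P i) = 0) →
      (∃ i i', cur c l i * Polynomial.C (∑ j, c j i') ≠
        cur c l i' * Polynomial.C (∑ j, c j i)) →
      MvPolynomial.aeval (fun i => ∑ j, c j i) (G i) = 0) :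
    SmallBound r (epsn ((d + 1) ^ r) / d) (2 ^ r * M0 ((d + 1) ^ r) d r) P G := by
  classical
  intro L _ _ φ V
  have h0 := Pool.Agent.R849.PR.bound_of_single P G (L := L)
    {t : Fin r → L | ∃ s : Fin r → Qbar, absLogHeight s < epsn ((d + 1) ^ r) / d ∧
      t = fun j => φ (s j)} V (2 ^ r * M0 ((d + 1) ^ r) d r) (fun g hg => by
      refine (Set.encard_le_encard ?_).trans (card_smallOff P d hd hP g (fun c l hz hc => ?_) φ V)
      · rintro p ⟨_, ⟨t, ht, rfl⟩, h1, ⟨_, h2⟩, h3, h4⟩
        exact ⟨t, ht, h1, h2, h3, h4⟩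
      · have h2 : Submodule.span k (Set.range G) ≤
            LinearMap.ker (aeval (fun i => ∑ j, c j i) :
              MvPolynomial (Fin (n + 1)) k →ₐ[k] L).toLinearMap := by
          rw [Submodule.span_le]
          rintro _ ⟨l', rfl⟩
          exact hall l' L c l hz hc
        exact h2 hg)
  refine (Set.encard_le_encard ?_).trans h0
  rintro p ⟨t, ht, ⟨_, h1, h2⟩, h3, h4⟩
  exact ⟨_, ⟨t, ht, rfl⟩, h1, h2, h3, h4⟩

theorem tors_of_small [Algebra k Qbar] {P : Fin N → MvPolynomial (Fin (n + 1)) k}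
    {G : Fin s → MvPolynomial (Fin (n + 1)) k} {ε : ℝ} (hε : 0 < ε) {M : ℕ}
    (h : SmallBound r ε M P G) : TorsFin r P G := by
  intro V
  refine (Set.finite_of_encard_le_coe (h Qbar (RingHom.id Qbar) V)).subset ?_
  rintro p ⟨t, ht, h1, h2, h3⟩
  refine ⟨t, ?_, h1, h2, h3⟩
  rw [Pool.Agent.R870.height_tors t (fun j => Or.inr (ht j))]
  exact hε

theorem curves_of_tors [Algebra k Qbar] {P : Fin N → MvPolynomial (Fin (n + 1)) k}
    {G : Fin s → MvPolynomial (Fin (n + 1)) k} (h : TorsFin r P G) : CurvesIn r P G := by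
  classical
  intro l c hc h0 i
  by_contra hGi
  refine curve_inf' (G i) c l hc hGi _ (Pool.Agent.R870.roots_infinite (RingHom.id Qbar))
    ((h c).subset ?_)
  rintro p ⟨z, ⟨m, hm, hz⟩, h1, h2, h3⟩
  refine ⟨fun j => z ^ l j, fun j => ⟨m, hm, ?_⟩, ⟨h2, fun t => ?_, i, h1⟩, h2, h3⟩
  · rw [← pow_mul, mul_comm, pow_mul, hz, one_pow]
  · have h4 : (fun a => ∑ j, z ^ l j * c j a) = fun a => (cur c l a).eval z := by
      funext a
      show _ = (∑ j, Polynomial.C (c j a) * Polynomial.X ^ (l j)).eval z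
      rw [Polynomial.eval_finsetSum]
      refine Finset.sum_congr rfl fun j _ => ?_
      rw [Polynomial.eval_mul, Polynomial.eval_C, Polynomial.eval_pow, Polynomial.eval_X, mul_comm]
    rw [h4, Pool.Agent.R849.PR.ev_poly, h0 t, Polynomial.eval_zero]

/-- cyclotomic multipliers -/
theorem cyc_of_all (d : ℕ) (hd : 1 ≤ d) (B : ℝ) (D : ℕ)
    (hD : ∀ {k L : Type} [Field k] [Field L] [Algebra k L]
      (ι : Qbar →+* L) (n N r : ℕ) (P : Fin N → MvPolynomial (Fin (n + 1)) k)
      (G : MvPolynomial (Fin (n + 1)) k) (v : Fin r → Fin (n + 1) → L) (ε : ℝ), 0 < ε →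
        Pool.Agent.R870.cycOff P G B v ⊆ smallOff ι P G ε
          (fun j : Fin (r * D) => v (finProdFinEquiv.symm j).1))
    [CharZero k] (P : Fin N → MvPolynomial (Fin (n + 1)) k)
    (hP : ∀ i, ∃ e, e ≤ d ∧ (P i).IsHomogeneous e) (G : MvPolynomial (Fin (n + 1)) k)
    (hall : ∀ (L : Type) [Field L] [Algebra k L] (c : Fin (r * D) → Fin (n + 1) → L)
      (l : Fin (r * D) → ℕ), (∀ i, MvPolynomial.aeval (cur c l) (P i) = 0) →
      (∃ i i', cur c l i * Polynomial.C (∑ j, c j i') ≠
        cur c l i' * Polynomial.C (∑ j, c j i)) →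
      MvPolynomial.aeval (fun i => ∑ j, c j i) G = 0)
    (L : Type) [Field L] [Algebra k L] (v : Fin r → Fin (n + 1) → L) :
    (Pool.Agent.R870.cycOff P G B v).encard ≤
      (2 ^ (r * D) * M0 ((d + 1) ^ (r * D)) d (r * D) : ℕ) := by
  have : CharZero L := charZero_of_injective_algebraMap (algebraMap k L).injective
  let φ : L →ₐ[k] AlgebraicClosure L := IsScalarTower.toAlgHom k L (AlgebraicClosure L)
  have : CharZero (AlgebraicClosure L) :=
    charZero_of_injective_algebraMap (algebraMap L (AlgebraicClosure L)).injective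
  obtain ⟨ι⟩ : Nonempty (Qbar →+* AlgebraicClosure L) := Pool.Agent.R870.exists_emb _
  refine (Pool.Agent.R870.cycOff_ext (AlgebraicClosure L) φ P G B v).trans ?_
  refine (Set.encard_le_encard (hD ι n N r P G _ (epsn ((d + 1) ^ (r * D)) / d)
    ?_)).trans (card_smallOff P d hd hP G (fun c l hz hc => hall _ c l hz hc) ι _)
  exact div_pos (epsn_pos _ (Nat.one_le_pow _ _ (by omega))) (by positivity)

end Pool.Agent.Helper6K9.EX
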